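import Mathlib

namespace Pool.Agent.MP_5e38ef_lc.KK

/-- `f` is the parity of some of its arguments, or the negation of such a parity. -/
def IsParity {t : ℕ} (f : (Fin t → Bool) → Bool) : Prop :=
  ∃ (c : ℕ) (T : Finset (Fin t)), ∀ y, f y = true ↔ Odd (c + (T.filter fun i => y i = true).card)

/-- `f` is a polynomial threshold function of degree at most `d`. -/
def SignDeg (d : ℕ) {t : ℕ} (f : (Fin t → Bool) → Bool) : Prop :=
  ∃ a : Finset (Fin t) → ℝ, (∀ T, d < T.card → a T = 0) ∧
    ∀ y, f y = true ↔ 0 < ∑ T, a T * ∏ i ∈ T, (if y i = true then (-1 : ℝ) else 1)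

/-- A deterministic data structure with `S` bits and `t` non-adaptive bit probes per query solves
`(k+1)`-SUM-Indexing for `k` arrays of length `n` with entries in `[0, U]` and queries in
`[0, k * U]`; unless `t ≤ d + 1`, the output function of every query is a parity or a polynomial
threshold function of degree at most `d`. -/
def SolvesBits (k n U S t d : ℕ) : Prop :=
  ∃ (pre : (Fin k → Fin n → ℤ) → Fin S → Bool) (addr : ℤ → Fin t → Fin S)
    (out : ℤ → (Fin t → Bool) → Bool),
    (∀ z, t ≤ d + 1 ∨ IsParity (out z) ∨ SignDeg d (out z)) ∧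
    ∀ A : Fin k → Fin n → ℤ, (∀ a i, 0 ≤ A a i ∧ A a i ≤ U) →
      ∀ z : ℤ, 0 ≤ z → z ≤ k * U →
        (out z (fun i => pre A (addr z i)) = true ↔ ∃ x : Fin k → Fin n, z = ∑ a, A a (x a))

end Pool.Agent.MP_5e38ef_lc.KK
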