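import Pool.Agent.MP_5e38ef_lc.KK.Inst
import Pool.Agent.MP_5e38ef_lc.KK.DefsB

namespace Pool.Agent.MP_5e38ef_lc.KK
open Finset

/-- A bit as an element of the field with two elements. -/
def bit (b : Bool) : ZMod 2 := if b then 1 else 0

lemma prod_sgn {ι : Type} (y : ι → Bool) (s : Finset ι) :
    ∏ i ∈ s, sgn (y i) = if ∑ i ∈ s, bit (y i) = 0 then 1 else -1 := by
  classical
  induction s using Finset.induction_on with
  | empty => simp
  | insert a s ha ih =>
    rw [prod_insert ha, sum_insert ha, ih]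
    generalize ∑ i ∈ s, bit (y i) = x
    have h : x = 0 ∨ x = 1 := by revert x; decide
    have h2 : (1 : ZMod 2) + 1 = 0 := by decide
    rcases h with rfl | rfl <;> cases y a <;> simp [sgn, bit, h2]

/-- The function is the parity of all its arguments or its negation. -/
def Par {t : ℕ} (f : (Fin t → Bool) → Bool) : Prop := ∃ c, ∀ y, bit (f y) = c + ∑ i, bit (y i)

lemma not_par {t : ℕ} {f : (Fin t → Bool) → Bool} (h : ¬ Par f) :
    |∑ a, sgn (f a) * ∏ i, sgn (a i)| ≤ 2 ^ t - 2 := by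
  have h1 : ∀ c : ZMod 2, ∃ y, bit (f y) ≠ c + ∑ i, bit (y i) := fun c =>
    not_forall.1 fun h2 => h ⟨c, h2⟩
  have h2 : ∀ a, |sgn (f a) * ∏ i, sgn (a i)| = 1 := fun a => by
    rw [abs_mul, abs_prod]; simp [abs_sgn]
  have h3 : ∀ x : ZMod 2, x = 0 ∨ x = 1 := by decide
  have h4 : (1 : ZMod 2) + 1 = 0 := by decide
  have hc : ∑ _a : Fin t → Bool, (1 : ℝ) = 2 ^ t := by simp
  rw [abs_le]
  constructor
  · obtain ⟨y, hy⟩ := h1 1
    have h5 := single_le_sum (f := fun a => 1 + sgn (f a) * ∏ i, sgn (a i))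
      (fun a _ => by linarith [(abs_le.1 (h2 a).le).1]) (mem_univ y)
    have h6 : sgn (f y) * ∏ i, sgn (y i) = 1 := by
      rw [prod_sgn]
      rcases h3 (∑ i, bit (y i)) with h7 | h7 <;> rw [h7] at hy ⊢ <;> cases h8 : f y <;>
        simp_all [sgn, bit]
    rw [sum_add_distrib, hc, h6] at h5
    linarith
  · obtain ⟨y, hy⟩ := h1 0
    have h5 := single_le_sum (f := fun a => 1 - sgn (f a) * ∏ i, sgn (a i))
      (fun a _ => by linarith [(abs_le.1 (h2 a).le).2]) (mem_univ y)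
    have h6 : sgn (f y) * ∏ i, sgn (y i) = -1 := by
      rw [prod_sgn]
      rcases h3 (∑ i, bit (y i)) with h7 | h7 <;> rw [h7] at hy ⊢ <;> cases h8 : f y <;>
        simp_all [sgn, bit]
    rw [sum_sub_distrib, hc, h6] at h5
    linarith

lemma parity_iff {t : ℕ} (b : Bool) (c : ℕ) (T : Finset (Fin t)) (y : Fin t → Bool) :
    (b = true ↔ Odd (c + (T.filter fun i => y i = true).card)) ↔
      bit b = c + ∑ i ∈ T, bit (y i) := by
  rw [← ZMod.natCast_eq_one_iff_odd]
  simp only [bit, sum_boole, Nat.cast_add]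
  generalize (c : ZMod 2) + _ = x
  revert x
  cases b <;> decide

lemma parity_or_signDeg {t d : ℕ} (ht : t ≤ d + 1) (f : (Fin t → Bool) → Bool) :
    IsParity f ∨ SignDeg d f := by
  classical
  by_cases h : Par f
  · obtain ⟨c, hc⟩ := h
    exact Or.inl ⟨c.val, univ, fun y => (parity_iff _ _ _ _).2 (by simpa using hc y)⟩
  refine Or.inr ⟨fun T => if T = univ then 0 else -∑ x, sgn (f x) * ∏ i ∈ T, sgn (x i),
    fun T hT => if_pos (eq_univ_of_card _ ?_), fun y => ?_⟩
  · have := card_le_univ T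
    simp only [Fintype.card_fin] at this ⊢
    omega
  have h1 : ∑ T : Finset (Fin t), (∑ x, sgn (f x) * ∏ i ∈ T, sgn (x i)) * ∏ i ∈ T, sgn (y i) =
      2 ^ t * sgn (f y) := by
    simp only [sum_mul, mul_assoc, ← prod_mul_distrib]
    rw [sum_comm]
    have h2 : ∀ x : Fin t → Bool, ∑ T : Finset (Fin t), ∏ i ∈ T, sgn (x i) * sgn (y i) =
        if x = y then 2 ^ t else 0 := by
      intro x
      rw [← powerset_univ, ← prod_one_add]
      split_ifs with h3
      · simp [h3, sgn_mul_self, one_add_one_eq_two]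
      · obtain ⟨i, hi⟩ := Function.ne_iff.1 h3
        refine prod_eq_zero (mem_univ i) ?_
        rw [Bool.eq_not_iff.2 hi, sgn_not, neg_mul, sgn_mul_self, add_neg_cancel]
    simp only [← mul_sum, h2]
    simp [mul_comm]
  have h2 : ∑ T : Finset (Fin t), (if T = univ then 0 else -∑ x, sgn (f x) * ∏ i ∈ T, sgn (x i)) *
      ∏ i ∈ T, sgn (y i) = (∑ x, sgn (f x) * ∏ i, sgn (x i)) * ∏ i, sgn (y i) -
        2 ^ t * sgn (f y) := by
    rw [← h1, ← add_sum_erase _ _ (mem_univ univ), ← add_sum_erase _ _ (mem_univ univ), if_pos rfl,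
      zero_mul, zero_add, sub_add_cancel_left, ← sum_neg_distrib]
    exact sum_congr rfl fun T hT => by rw [if_neg (mem_erase.1 hT).1, neg_mul]
  have h3 : |(∑ x, sgn (f x) * ∏ i, sgn (x i)) * ∏ i, sgn (y i)| ≤ 2 ^ t - 2 := by
    rw [abs_mul, abs_prod]
    simpa [abs_sgn] using not_par h
  change _ ↔ 0 < ∑ T : Finset (Fin t), _ * ∏ i ∈ T, sgn (y i)
  rw [h2]
  rw [abs_le] at h3
  cases f y <;> simp only [sgn, Bool.false_eq_true, if_true, if_false, false_iff, true_iff] at h3 ⊢ <;>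
    linarith

/-- A sign representation with bounded coefficients and margin `γ`. -/
def Rep (d : ℕ) (γ : ℝ) {t : ℕ} (f : (Fin t → Bool) → Bool) : Prop :=
  ∃ a : Finset (Fin t) → ℝ, (∀ T, |a T| ≤ 1) ∧ (∀ T, d < T.card → a T = 0) ∧
    ∀ y, γ ≤ sgn (f y) * ∑ T, a T * ∏ i ∈ T, sgn (y i)

lemma exists_margin (d t : ℕ) :
    ∃ γ : ℝ, 0 < γ ∧ ∀ f : (Fin t → Bool) → Bool, SignDeg d f → Rep d γ f := by
  classical
  have h1 : ∀ f : (Fin t → Bool) → Bool, ∃ γ : ℝ, 0 < γ ∧ (SignDeg d f → Rep d γ f) := by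
    intro f
    by_cases h : SignDeg d f
    swap
    · exact ⟨1, one_pos, fun h' => (h h').elim⟩
    obtain ⟨a, ha, h⟩ := h
    obtain ⟨y₀, hy⟩ := Finite.exists_min fun y =>
      if f y = true then ∑ T, a T * ∏ i ∈ T, sgn (y i) else 1
    set β := if f y₀ = true then ∑ T, a T * ∏ i ∈ T, sgn (y₀ i) else 1 with hβ
    have hβ0 : 0 < β := by
      rw [hβ]; split_ifs with h2
      · exact (h y₀).1 h2
      · exact one_pos
    set a' : Finset (Fin t) → ℝ := fun T => (if T = ∅ then β / 2 else 0) - a T with ha'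
    set K := 1 + ∑ T, |a' T| with hK
    have hK0 : 0 < K := by positivity
    refine ⟨β / 2 / K, by positivity, fun _ => ⟨fun T => a' T / K, fun T => ?_, fun T hT => ?_,
      fun y => ?_⟩⟩
    · rw [abs_div, abs_of_pos hK0, div_le_one hK0]
      linarith [single_le_sum (f := fun T => |a' T|) (fun _ _ => abs_nonneg _) (mem_univ T)]
    · have : T ≠ ∅ := by rintro rfl; simp at hT
      simp [ha', ha T hT, this]
    · simp only [div_mul_eq_mul_div, ← sum_div, ← mul_div_assoc]
      refine div_le_div_of_nonneg_right ?_ hK0.le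
      simp only [ha', sub_mul, sum_sub_distrib, ite_mul, zero_mul, sum_ite_eq', mem_univ, if_true,
        prod_empty, mul_one]
      have h2 := hy y
      have h3 : f y = true ↔ 0 < ∑ T, a T * ∏ i ∈ T, sgn (y i) := h y
      generalize ∑ T, a T * ∏ i ∈ T, sgn (y i) = p at h2 h3 ⊢
      cases hf : f y <;> simp only [hf, sgn, Bool.false_eq_true, if_true, if_false, false_iff,
        not_lt] at h2 h3 ⊢ <;> linarith
  choose γ hγ using h1
  obtain ⟨f₀, hf⟩ := Finite.exists_min γ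
  refine ⟨γ f₀, (hγ _).1, fun f h => ?_⟩
  obtain ⟨a, h1, h2, h3⟩ := (hγ f).2 h
  exact ⟨a, h1, h2, fun y => (hf f).trans (h3 y)⟩

lemma exists_enum {ι : Type} [DecidableEq ι] (d : ℕ) : ∀ T : Finset ι, T.card ≤ d →
    ∃ e : Fin d → Option ι, ∀ F : ι → ℝ, ∏ j, (e j).elim 1 F = ∏ i ∈ T, F i := by
  induction d with
  | zero => intro T hT; exact ⟨Fin.elim0, fun F => by simp [card_eq_zero.1 (Nat.le_zero.1 hT)]⟩
  | succ d ih =>
    intro T hT
    rcases T.eq_empty_or_nonempty with rfl | ⟨i, hi⟩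
    · exact ⟨fun _ => none, fun F => by simp⟩
    · obtain ⟨e, he⟩ := ih (T.erase i) (by rw [card_erase_of_mem hi]; omega)
      refine ⟨Fin.cons (some i) e, fun F => ?_⟩
      rw [Fin.prod_univ_succ, ← mul_prod_erase T F hi, ← he]
      rfl

lemma best_rep {Ω : Type} [Fintype Ω] {t d : ℕ} {γ : ℝ} (y : Ω → Fin t → Bool)
    {f : (Fin t → Bool) → Bool} (h : Rep d γ f) :
    ∃ (b : ℝ) (e : Fin d → Option (Fin t)), |b| ≤ 1 ∧ γ * (Fintype.card Ω : ℝ) ≤
      2 ^ t * ∑ ω, b * sgn (f (y ω)) * ∏ j, (e j).elim 1 fun i => sgn (y ω i) := by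
  obtain ⟨a, h1, h2, h3⟩ := h
  obtain ⟨T, hT⟩ := Finite.exists_max fun T : Finset (Fin t) =>
    ∑ ω, a T * sgn (f (y ω)) * ∏ i ∈ T, sgn (y ω i)
  have h4 := sum_le_card_nsmul univ _ _ fun q _ => hT q
  rw [card_univ, Fintype.card_finset, Fintype.card_fin, nsmul_eq_mul, sum_comm] at h4
  have h5 : γ * (Fintype.card Ω : ℝ) ≤ 2 ^ t * ∑ ω, a T * sgn (f (y ω)) * ∏ i ∈ T, sgn (y ω i) := by
    refine le_trans ?_ (h4.trans_eq (by push_cast; rfl))
    rw [← card_univ, mul_comm, ← nsmul_eq_mul, ← sum_const]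
    refine sum_le_sum fun ω _ => (h3 (y ω)).trans (le_of_eq ?_)
    rw [mul_sum]
    exact sum_congr rfl fun T _ => by ring
  by_cases h6 : T.card ≤ d
  · obtain ⟨e, he⟩ := exists_enum d T h6
    exact ⟨a T, e, h1 T, by simpa only [he] using h5⟩
  · exact ⟨0, fun _ => none, by simp, by simpa [h2 T (not_le.1 h6)] using h5⟩

lemma par_card {Z : Type} [Fintype Z] [DecidableEq Z] {S t : ℕ} (addr : Z → Fin t → Fin S)
    (out : Z → (Fin t → Bool) → Bool) (M : Z → Fin S → Bool) (hp : ∀ z, IsParity (out z))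
    (h : ∀ z z₀, out z (fun i => M z₀ (addr z i)) = true ↔ z = z₀) : Fintype.card Z ≤ S + 1 := by
  choose c T hc using hp
  let A : Matrix Z (Option (Fin S)) (ZMod 2) := fun z o =>
    o.elim (c z) fun s => ∑ i ∈ T z, if addr z i = s then 1 else 0
  let B : Matrix (Option (Fin S)) Z (ZMod 2) := fun o z => o.elim 1 fun s => bit (M z s)
  have hAB : A * B = 1 := by
    ext z z₀
    rw [Matrix.mul_apply, Fintype.sum_option, Matrix.one_apply]
    simp only [A, B, Option.elim, mul_one, sum_mul]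
    rw [sum_comm]
    simp only [ite_mul, one_mul, zero_mul, sum_ite_eq, mem_univ, if_true]
    rw [← (parity_iff _ _ _ _).1 (hc z fun i => M z₀ (addr z i)), bit]
    exact if_congr (h z z₀) rfl rfl
  have h1 := (Matrix.rank_mul_le_left A B).trans (Matrix.rank_le_card_width A)
  rw [hAB, Matrix.rank_one] at h1
  simpa using h1

variable {k n m : ℕ}

lemma qry_inj (hn : m ≤ n) : Function.Injective (qry (k := k) (n := n) (m := m)) := by
  intro z z' h
  obtain ⟨h1, h2⟩ := divmod_eq (by omega) (by omega) h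
  have h3 := z.1.2
  have h4 := z'.1.2
  refine Prod.ext (Fin.ext (by omega)) (finFunctionFinEquiv.injective (Fin.ext ?_))
  rw [finFunctionFinEquiv_apply, finFunctionFinEquiv_apply, h1]

theorem bits_bound {U S t d l g i T : ℕ} {γ : ℝ} (hγ : 0 < γ)
    (hR : ∀ f : (Fin t → Bool) → Bool, SignDeg d f → Rep d γ f) (hT : 2 ≤ T)
    (hγT : 52 ≤ (γ / (4 * 2 ^ t * 2 ^ d)) ^ 2 * T) (hU : 4 * n ^ (k + 1) ≤ U)
    (H : SolvesBits (k + 1) n U S t d) (h : Fits k n m d l g i T) : l * g ^ 2 ≤ S * 1 := by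
  classical
  by_contra hS
  obtain ⟨pre, addr, out, hout, H⟩ := H
  have hn := h.1
  have hm0 : 0 < m := lt_of_lt_of_le (by positivity) h.2.2.2.2.2.2.2.2
  have hn0 : 0 < n := lt_of_lt_of_le (by positivity) hn
  let Ω := (Fin k × Fin n → Fin m) × (Fin n → Bool)
  let Z := Fin m × (Fin k → Fin n)
  have hq : ∀ z : Z, qry z ≤ U := fun z => (qry_le hn0 z).trans hU
  have hq' : ∀ z : Z, (qry z : ℤ) ≤ (k + 1 : ℕ) * U := fun z => by
    exact_mod_cast (hq z).trans (Nat.le_mul_of_pos_left _ (by omega))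
  have h1 : (univ.filter fun z : Z => IsParity (out (qry z))).card ≤ S + 1 := by
    rw [← Fintype.card_subtype]
    refine par_card (Z := {z : Z // IsParity (out (qry z))}) (fun z => addr (qry z.1))
      (fun z => out (qry z.1)) (fun z => pre (Fin.cons (fun _ => qry z.1) fun _ _ => 0))
      (fun z => z.2) fun z z₀ => ?_
    rw [H _ (Fin.cases (fun _ => ⟨by simp, by simpa using hq _⟩) fun _ _ => by simp) _
      (by positivity) (hq' _)]
    simp only [Fin.sum_univ_succ, Fin.cons_zero, Fin.cons_succ, sum_const_zero, add_zero,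
      Nat.cast_inj]
    exact ⟨fun h => h.elim fun _ h => Subtype.ext (qry_inj (by nlinarith) h),
      fun h => ⟨fun _ => ⟨0, hn0⟩, by rw [h]⟩⟩
  let M : Ω → Fin S → Bool := fun p => pre fun a x => arr p.1 p.2 a x
  have h2 : ∀ (z : Z) (p : Ω), out (qry z) (fun i => M p (addr (qry z) i)) = p.2 (cls hn p.1 z) := by
    intro z p
    rw [Bool.eq_iff_iff, ← ans_iff]
    exact H (fun a x => arr p.1 p.2 a x)
      (fun a x => ⟨by positivity, by exact_mod_cast (arr_le hn _ _ a x).trans hU⟩) (qry z)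
      (by positivity) (hq' z)
  have h3 : ∀ z : Z, ∃ (b : ℝ) (e : Fin d → Option (Fin S)), |b| ≤ 1 ∧
      γ * (Fintype.card Ω : ℝ) * (if IsParity (out (qry z)) then 0 else 1) ≤ 2 ^ t *
        ∑ p : Ω, b * sgn (p.2 (cls hn p.1 z)) * ∏ j, (e j).elim 1 fun s => sgn (M p s) := by
    intro z
    split_ifs with h4
    · exact ⟨0, fun _ => none, by simp, by simp⟩
    · obtain ⟨b, e, hb, h5⟩ := best_rep (fun p i => M p (addr (qry z) i)) (hR _
        (((hout (qry z)).elim (fun h => parity_or_signDeg h _) id).resolve_left h4))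
      refine ⟨b, fun j => (e j).map (addr (qry z)), hb, ?_⟩
      simp only [h2] at h5
      rw [mul_one]
      refine h5.trans (le_of_eq ?_)
      congr 1
      refine sum_congr rfl fun p _ => ?_
      congr 1
      exact prod_congr rfl fun j _ => by dsimp only; cases e j <;> rfl
  choose b e hb he using h3
  have key := inst_refute h (V := Option (Fin S))
    (by simp only [Fintype.card_option, Fintype.card_fin]; omega) (by positivity) hγT e b hb
    (fun p o => o.elim 1 fun s => sgn (M p s)) fun p v => by cases v <;> simp [sgn_mul_self]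
  have h4 := (sum_le_sum (s := univ) fun z _ => he z).trans_eq (mul_sum _ _ _).symm
  have h5 := h4.trans (mul_le_mul_of_nonneg_left key (by positivity))
  have h6 : (m : ℝ) * n ^ k ≤ 2 * ∑ z : Z, (if IsParity (out (qry z)) then (0 : ℝ) else 1) := by
    have h7 : 2 * (S + 1) ≤ m * n ^ k := by
      refine le_trans ?_ h.le
      have h8 : g ^ 2 ≤ g ^ d := Nat.pow_le_pow_right h.2.2.1 h.2.1
      calc _ ≤ 2 * (l * g ^ 2) := by omega
        _ = l * 2 * g ^ 2 := by ring
        _ ≤ _ := by gcongr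
    have h8 := card_filter_add_card_filter_not (s := univ) fun z : Z => IsParity (out (qry z))
    have h9 : (univ : Finset Z).card = m * n ^ k := by simp [Z]
    rw [sum_ite, sum_const_zero, zero_add, sum_const, nsmul_eq_mul, mul_one]
    exact_mod_cast
      (by omega : m * n ^ k ≤ 2 * (univ.filter fun z : Z => ¬ IsParity (out (qry z))).card)
  have h7 : (0 : ℝ) < γ * Fintype.card Ω := by
    have : Nonempty (Fin m) := ⟨⟨0, hm0⟩⟩
    have := Fintype.card_pos (α := Ω)
    positivity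
  have h8 : (2 : ℝ) ^ t * (Fintype.card Ω * (2 ^ d * (γ / (4 * 2 ^ t * 2 ^ d) * (m * n ^ k)))) =
      γ * Fintype.card Ω * (m * n ^ k) / 4 := by
    field_simp
  rw [← mul_sum, h8] at h5
  nlinarith [mul_le_mul_of_nonneg_left h6 h7.le,
    mul_pos h7 (show (0 : ℝ) < m * n ^ k by positivity)]

theorem main_bits (k t d : ℕ) (hk : 2 ≤ k) (hd : 2 ≤ d) (δ : ℝ) (hδ : 0 < δ) :
    ∀ᶠ n : ℕ in Filter.atTop, ∀ U S : ℕ, 4 * n ^ k ≤ U → SolvesBits k n U S t d →
      (n : ℝ) ^ (1 + 2 * ((k : ℝ) - 1) / d - δ) ≤ S := by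
  obtain ⟨k, rfl⟩ : ∃ k', k = k' + 1 := ⟨k - 1, by omega⟩
  obtain ⟨γ, hγ, hR⟩ := exists_margin d t
  obtain ⟨T, hT⟩ := exists_nat_ge (max 2 (52 / (γ / (4 * 2 ^ t * 2 ^ d)) ^ 2))
  have hT2 : 2 ≤ T := by exact_mod_cast (le_max_left _ _).trans hT
  have hT3 := (div_le_iff₀' (by positivity)).1 ((le_max_right _ _).trans hT)
  have hd0 : 0 < d := by omega
  have hT0 : 0 < T := by omega
  filter_upwards [ev_log (64 * (T : ℝ) ^ 3 * 2 ^ d * (d * (k + 1)) * (k + 1))
    (by positivity) 1 (lt_min hδ one_pos), Filter.eventually_ge_atTop 1] with n e1 hn U S hU H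
  have key := real_bound (k := k) (S := S) (W := 1) hd hn hT0 le_rfl (min_le_right δ 1)
    (by simpa using e1) fun m l g i h => bits_bound hγ hR hT2 hT3 hU H h
  refine le_trans (Real.rpow_le_rpow_of_exponent_le (by exact_mod_cast hn) ?_) key
  have := min_le_left δ 1
  push_cast
  simp only [add_sub_cancel_right]
  linarith

end Pool.Agent.MP_5e38ef_lc.KK
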