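import Mathlib

namespace Pool.Agent.MP_5e38ef_lc.KK
open Finset

variable {Z V : Type} [DecidableEq Z] [DecidableEq V] {t : ℕ}

lemma decomp_step (i0 : Fin t) (e : Z → Fin t → V) (τ : ℕ → ℕ) (hτ : ∀ j, 0 < τ j)
    (Z0 : Finset Z) (h0 : Z0.Nonempty) :
    ∃ (P : Finset (Fin t)) (G : Finset Z), G ⊆ Z0 ∧ G.Nonempty ∧ P.Nonempty ∧
      (∀ z ∈ G, ∀ z' ∈ G, ∀ i ∈ P, e z i = e z' i) ∧
      (∀ z ∈ G, ∀ P', P ⊆ P' → (G.filter fun z' => ∀ i ∈ P', e z' i = e z i).card ≤ τ P'.card) ∧
      τ P.card + ((Z0 \ G).card + ((Z0 \ G).image fun z => e z i0).card * τ 1) ≤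
        Z0.card + (Z0.image fun z => e z i0).card * τ 1 := by
  classical
  set H : Finset (Finset (Fin t) × Z) := (univ ×ˢ Z0).filter fun p => p.1.Nonempty ∧
    τ p.1.card ≤ (Z0.filter fun z' => ∀ i ∈ p.1, e z' i = e p.2 i).card with hH
  have hl : ∀ G ⊆ Z0, ∀ z ∈ G, ∀ P' : Finset (Fin t), P'.Nonempty → (P', z) ∉ H →
      (G.filter fun z' => ∀ i ∈ P', e z' i = e z i).card ≤ τ P'.card := by
    intro G hG z hz P' hP' h
    simp only [hH, mem_filter, mem_product, mem_univ, true_and, hG hz, hP', not_le] at h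
    exact (card_le_card (filter_subset_filter _ hG)).trans h.le
  rcases H.eq_empty_or_nonempty with h | h
  · obtain ⟨z0, hz0⟩ := h0
    refine ⟨{i0}, Z0.filter fun z => e z i0 = e z0 i0, filter_subset _ _, ⟨z0, by simp [hz0]⟩,
      by simp, ?_, ?_, ?_⟩
    · intro z hz z' hz' i hi
      rw [mem_singleton.1 hi, (mem_filter.1 hz).2, (mem_filter.1 hz').2]
    · intro z hz P' hP'
      exact hl _ (filter_subset _ _) z hz P' ⟨i0, hP' (by simp)⟩ (by simp [h])
    · have h1 : ((Z0 \ Z0.filter fun z => e z i0 = e z0 i0).image fun z => e z i0).card <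
          (Z0.image fun z => e z i0).card := by
        refine card_lt_card ⟨image_subset_image sdiff_subset, fun h2 => ?_⟩
        obtain ⟨z, hz, h3⟩ := mem_image.1 (h2 (mem_image_of_mem _ hz0))
        rw [mem_sdiff, mem_filter] at hz
        exact hz.2 ⟨hz.1, h3⟩
      have h2 := card_le_card (sdiff_subset (s := Z0) (t := Z0.filter fun z => e z i0 = e z0 i0))
      have h3 := Nat.mul_le_mul_right (τ 1) (Nat.succ_le_of_lt h1)
      rw [Nat.succ_mul] at h3
      rw [card_singleton]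
      omega
  · obtain ⟨⟨P, z0⟩, h1, h2⟩ := exists_max_image H (fun p => p.1.card) h
    simp only [hH, mem_filter, mem_product, mem_univ, true_and] at h1
    obtain ⟨G, hG1, hG2⟩ := exists_subset_card_eq h1.2.2
    have hG : G ⊆ Z0 := hG1.trans (filter_subset _ _)
    refine ⟨P, G, hG, card_pos.1 (hG2 ▸ hτ _), h1.2.1, ?_, ?_, ?_⟩
    · intro z hz z' hz' i hi
      rw [(mem_filter.1 (hG1 hz)).2 i hi, (mem_filter.1 (hG1 hz')).2 i hi]
    · intro z hz P' hP'
      rcases hP'.eq_or_ssubset with rfl | h3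
      · exact (card_filter_le _ _).trans hG2.le
      · exact hl G hG z hz P' (h1.2.1.mono hP') fun h4 => (card_lt_card h3).not_ge (h2 _ h4)
    · have h3 := card_sdiff_add_card_eq_card hG
      have h4 := Nat.mul_le_mul_right (τ 1) (card_le_card
        (image_subset_image (f := fun z => e z i0) (sdiff_subset (s := Z0) (t := G))))
      omega

theorem decomp (i0 : Fin t) (e : Z → Fin t → V) (τ : ℕ → ℕ) (hτ : ∀ j, 0 < τ j) (Z0 : Finset Z) :
    ∃ (grp : Z → ℕ) (piv : Z → Finset (Fin t)), (∀ z ∈ Z0, grp z ≤ Z0.card) ∧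
      (∀ z ∈ Z0, (piv z).Nonempty) ∧
      (∀ z ∈ Z0, ∀ z' ∈ Z0, grp z = grp z' → piv z = piv z' ∧ ∀ i ∈ piv z, e z i = e z' i) ∧
      (∀ z ∈ Z0, ∀ P', piv z ⊆ P' →
        (Z0.filter fun z' => grp z' = grp z ∧ ∀ i ∈ P', e z' i = e z i).card ≤ τ P'.card) ∧
      ∀ P, ((Z0.filter fun z => piv z = P).image grp).card * τ P.card ≤
        Z0.card + (Z0.image fun z => e z i0).card * τ 1 := by
  induction Z0 using Finset.strongInduction with
  | H Z0 ih =>
  rcases Z0.eq_empty_or_nonempty with rfl | h0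
  · exact ⟨fun _ => 0, fun _ => ∅, by simp⟩
  obtain ⟨P, G, hG, hG0, hP, h1, h2, h3⟩ := decomp_step i0 e τ hτ Z0 h0
  have hss : Z0 \ G ⊂ Z0 := sdiff_ssubset hG hG0
  have hlt := card_lt_card hss
  obtain ⟨grp, piv, k1, k2, k3, k4, k5⟩ := ih _ hss
  have hm : ∀ z ∈ Z0, z ∉ G → z ∈ Z0 \ G := fun z hz h => mem_sdiff.2 ⟨hz, h⟩
  refine ⟨fun z => if z ∈ G then Z0.card else grp z, fun z => if z ∈ G then P else piv z,
    fun z hz => ?_, fun z hz => ?_, fun z hz z' hz' h => ?_, fun z hz P' hP' => ?_, fun P0 => ?_⟩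
  · dsimp only
    split_ifs with h
    · rfl
    · exact (k1 z (hm z hz h)).trans hlt.le
  · dsimp only
    split_ifs with h
    · exact hP
    · exact k2 z (hm z hz h)
  · by_cases a : z ∈ G <;> by_cases b : z' ∈ G <;> simp only [a, b, if_true, if_false] at h ⊢
    · exact ⟨trivial, h1 z a z' b⟩
    · have := k1 z' (hm z' hz' b); omega
    · have := k1 z (hm z hz a); omega
    · exact k3 z (hm z hz a) z' (hm z' hz' b) h
  · by_cases a : z ∈ G <;> simp only [a, if_true, if_false] at hP' ⊢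
    · refine le_trans (card_le_card fun z' hz' => ?_) (h2 z a P' hP')
      rw [mem_filter] at hz' ⊢
      refine ⟨?_, hz'.2.2⟩
      by_contra b
      have := k1 z' (hm z' hz'.1 b)
      have h4 := hz'.2.1
      rw [if_neg b] at h4
      omega
    · refine le_trans (card_le_card fun z' hz' => ?_) (k4 z (hm z hz a) P' hP')
      rw [mem_filter] at hz' ⊢
      have h4 := hz'.2.1
      by_cases b : z' ∈ G
      · have := k1 z (hm z hz a)
        rw [if_pos b] at h4
        omega
      · rw [if_neg b] at h4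
        exact ⟨hm z' hz'.1 b, h4, hz'.2.2⟩
  · have h4 : ((Z0.filter fun z => (if z ∈ G then P else piv z) = P0).image
        fun z => if z ∈ G then Z0.card else grp z) ⊆ (if P = P0 then {Z0.card} else ∅) ∪
        ((Z0 \ G).filter fun z => piv z = P0).image grp := by
      intro y hy
      obtain ⟨z, hz, rfl⟩ := mem_image.1 hy
      rw [mem_filter] at hz
      by_cases a : z ∈ G <;> simp only [a, if_true, if_false] at hz ⊢
      · simp [hz.2]
      · exact mem_union_right _ (mem_image_of_mem _ (mem_filter.2 ⟨hm z hz.1 a, hz.2⟩))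
    have h5 := Nat.mul_le_mul_right (τ P0.card) ((card_le_card h4).trans (card_union_le _ _))
    have h6 := k5 P0
    rw [add_mul] at h5
    refine h5.trans (le_trans (add_le_add ?_ h6) h3)
    split_ifs with h
    · simp [h]
    · simp

end Pool.Agent.MP_5e38ef_lc.KK
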