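import Pool.Agent.MP_5e38ef_lc.Defs

namespace Pool.Agent.MP_5e38ef_lc.KK

/-- A randomised cell-probe data structure with `S` cells of `w` bits and `t` adaptive probes per
query solves `(k+1)`-SUM-Indexing for `k` arrays of length `n` with entries in `[0, U]` and queries
in `[0, k * U]`: a uniform coin `ω` is shared by preprocessing and queries, and for every input and
every query at least two thirds of the coins give the right answer. -/
def SolvesR (k n U S w t : ℕ) : Prop :=
  ∃ (r : ℕ) (pre : Fin r → (Fin k → Fin n → ℤ) → Fin S → Fin (2 ^ w))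
    (addr : Fin r → ℤ → List (Fin (2 ^ w)) → Fin S) (out : Fin r → ℤ → List (Fin (2 ^ w)) → Bool),
    0 < r ∧ ∀ A : Fin k → Fin n → ℤ, (∀ a i, 0 ≤ A a i ∧ A a i ≤ U) →
      ∀ z : ℤ, 0 ≤ z → z ≤ k * U → 2 * r ≤ 3 * (Finset.univ.filter fun ω : Fin r =>
        (out ω z (reads (addr ω z) (pre ω A) t) = true ↔
          ∃ x : Fin k → Fin n, z = ∑ a, A a (x a))).card

end Pool.Agent.MP_5e38ef_lc.KK
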