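import Pool.Agent.MP_5e38ef_lc.KK.Trace
import Pool.Agent.MP_5e38ef_lc.KK.Decomp

namespace Pool.Agent.MP_5e38ef_lc.KK
open Finset

set_option linter.unusedSectionVars false

variable {V R : Type} [Fintype V] [DecidableEq V] [Fintype R] [DecidableEq R] {l : ℕ}

lemma kappa (v v' : V) : ∑ a : Fin l × (Fin l → V), ∑ a' : Fin l × (Fin l → V),
    (if Function.update a'.2 a'.1 v' = Function.update a.2 a.1 v then (1 : ℝ) else 0) ≤
    l * (Fintype.card V : ℝ) ^ l * (Fintype.card V * (if v' = v then 1 else 0) + l) := by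
  set n : ℝ := (Fintype.card V : ℝ) with hn
  have hn0 : 0 ≤ n := Nat.cast_nonneg _
  have h1 : ∀ (p : Fin l) (Y : Fin l → V), ∑ L : Fin l → V,
      (if Function.update L p v' = Y then (1 : ℝ) else 0) ≤ n * if Y p = v' then 1 else 0 := by
    intro p Y
    split_ifs with h
    · rw [sum_boole, mul_one, hn, ← card_univ, Nat.cast_le]
      refine card_le_card_of_injOn (fun L => L p) (fun _ _ => mem_univ _) fun L hL L' hL' h2 => ?_
      have h3 := (mem_filter.1 hL).2.trans (mem_filter.1 hL').2.symm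
      funext r
      by_cases hr : r = p
      · rw [hr]; exact h2
      · simpa [hr] using congrFun h3 r
    · rw [mul_zero]
      refine le_of_eq (sum_eq_zero fun L _ => if_neg fun h2 => h ?_)
      rw [← h2, Function.update_self]
  have h2 : ∀ p p' : Fin l, ∑ L : Fin l → V, n * (if Function.update L p v p' = v' then 1 else 0) ≤
      n ^ l * (n * (if v' = v then 1 else 0) * (if p' = p then 1 else 0) + 1) := by
    intro p p'
    have hp : 0 ≤ n ^ l := by positivity
    by_cases h : p' = p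
    · subst h
      simp only [Function.update_self, sum_const, card_univ, Fintype.card_fun, Fintype.card_fin,
        nsmul_eq_mul, Nat.cast_pow, ← hn, if_true, mul_one, eq_comm (a := v)]
      linarith [mul_add (n ^ l) (n * if v' = v then 1 else 0) 1]
    · have h3 := sum_update p' fun L : Fin l → V => if L p' = v' then (1 : ℝ) else 0
      simp only [Function.update_self, sum_ite_eq', mem_univ, if_true, sum_const, card_univ,
        Fintype.card_fun, Fintype.card_fin, nsmul_eq_mul, Nat.cast_pow, ← hn, mul_one] at h3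
      simp only [Function.update_of_ne h, if_neg h, mul_zero, zero_add, mul_one]
      rw [← mul_sum, h3]
  simp only [Fintype.sum_prod_type]
  calc _ ≤ ∑ p : Fin l, ∑ p' : Fin l,
        n ^ l * (n * (if v' = v then 1 else 0) * (if p' = p then 1 else 0) + 1) := by
        refine sum_le_sum fun p _ => ?_
        rw [sum_comm]
        exact sum_le_sum fun p' _ => (sum_le_sum fun L _ => h1 p' _).trans (h2 p p')
    _ = _ := by
        simp only [← mul_sum, sum_add_distrib, sum_ite_eq', mem_univ, if_true, sum_const, card_univ,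
          Fintype.card_fin, nsmul_eq_mul]
        ring

lemma sum_sum_prod {B : Type} [Fintype B] (F : R → B → B → ℝ) :
    ∑ Y : R → B, ∑ Y' : R → B, ∏ i, F i (Y i) (Y' i) = ∏ i, ∑ a, ∑ a', F i a a' := by
  rw [Fintype.prod_sum]
  exact sum_congr rfl fun Y _ => (Fintype.prod_sum fun i a' => F i (Y i) a').symm

/-- The source of an edge of the tuple graph. -/
def ksrc {A : Type} (w : A → R → V) (e : A × (R → Fin l × (Fin l → V))) : R → Fin l → V :=
  fun i => Function.update (e.2 i).2 (e.2 i).1 (w e.1 i)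

lemma same_sum {A Z : Type} [Fintype A] [DecidableEq Z] (w : A → R → V) (y : A → Z) {γ : ℝ}
    (hγ : 0 < γ) (hV : (Fintype.card V : ℝ) = l * γ) :
    ∑ e : A × (R → Fin l × (Fin l → V)), (same (ksrc w) (fun e => y e.1) e : ℝ) ≤
      (l * (Fintype.card V : ℝ) ^ l * Fintype.card V) ^ Fintype.card R * ∑ p, ∑ p',
        (if y p' = y p then 1 else 0) * ∏ i, ((if w p' i = w p i then 1 else 0) + γ⁻¹) := by
  have h1 : ∀ (p : A) (Y0 : R → Fin l × (Fin l → V)),
      (same (ksrc w) (fun e => y e.1) (p, Y0) : ℝ) =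
      ∑ p', (if y p' = y p then 1 else 0) * ∑ Y : R → Fin l × (Fin l → V), ∏ i,
        (if Function.update (Y i).2 (Y i).1 (w p' i) =
          Function.update (Y0 i).2 (Y0 i).1 (w p i) then (1 : ℝ) else 0) := by
    intro p Y0
    rw [same, ← sum_boole, Fintype.sum_prod_type]
    refine sum_congr rfl fun p' _ => ?_
    rw [mul_sum]
    refine sum_congr rfl fun Y _ => ?_
    rw [Fintype.prod_boole]
    simp only [funext_iff (f := ksrc w _), ksrc]
    split_ifs <;> first | (norm_num; done) | tauto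
  rw [Fintype.sum_prod_type]
  simp only [h1, mul_sum _ _ (_ ^ Fintype.card R)]
  refine sum_le_sum fun p _ => ?_
  rw [sum_comm]
  refine sum_le_sum fun p' _ => ?_
  rw [← mul_sum, mul_left_comm]
  refine mul_le_mul_of_nonneg_left ?_ (by split_ifs <;> norm_num)
  refine (sum_sum_prod fun i (a a' : Fin l × (Fin l → V)) => if Function.update a'.2 a'.1 (w p' i) =
    Function.update a.2 a.1 (w p i) then (1 : ℝ) else 0).trans_le ?_
  rw [← card_univ (α := R), ← prod_const, ← prod_mul_distrib]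
  refine prod_le_prod (fun i _ => by positivity) fun i _ => (kappa _ _).trans (le_of_eq ?_)
  rw [mul_assoc _ (Fintype.card V : ℝ), mul_add (Fintype.card V : ℝ)]
  congr 2
  rw [hV]
  field_simp

lemma block_sum {Z : Type} (D : Finset Z) (u : Z → R → V) (v : R → V) (B : Finset R) {γ T : ℝ}
    (hγ : 1 ≤ γ) (hT : 0 ≤ T) (b : ℕ) (hb : b ≤ B.card)
    (h : ∀ I : Finset R, ((D.filter fun z => ∀ i ∈ I, u z i = v i).card : ℝ) ≤
      T * γ ^ (b - I.card)) (F : Z → R → ℝ) (hF0 : ∀ z i, 0 ≤ F z i) (hF1 : ∀ z i, F z i ≤ 1)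
    (hF : ∀ z, ∀ i ∈ B, F z i = if u z i = v i then 1 else 0) :
    ∑ z ∈ D, ∏ i, (F z i + γ⁻¹) ≤ 2 ^ Fintype.card R * T := by
  have hγ0 : 0 < γ := by linarith
  have h1 : ∀ z, ∏ i, (F z i + γ⁻¹) ≤ 2 ^ Bᶜ.card * ∑ I ∈ B.powerset,
      (if ∀ i ∈ I, u z i = v i then 1 else 0) * γ⁻¹ ^ (B.card - I.card) := by
    intro z
    have h2 : ∀ i, 0 ≤ F z i + γ⁻¹ := fun i => add_nonneg (hF0 z i) (by positivity)
    rw [← prod_mul_prod_compl B, mul_comm, ← prod_const]
    refine mul_le_mul (prod_le_prod (fun i _ => h2 i) fun i _ => ?_) (le_of_eq ?_)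
      (prod_nonneg fun i _ => h2 i) (by positivity)
    · linarith [hF1 z i, inv_le_one_of_one_le₀ hγ]
    · rw [prod_congr rfl fun i hi => by rw [hF z i hi], prod_add]
      refine sum_congr rfl fun I hI => ?_
      rw [prod_boole, prod_const, card_sdiff_of_subset (mem_powerset.1 hI)]
      congr
  refine (sum_le_sum fun z _ => h1 z).trans ?_
  rw [← mul_sum, sum_comm, ← card_add_card_compl B, add_comm, pow_add, mul_assoc]
  refine mul_le_mul_of_nonneg_left ?_ (by positivity)
  calc _ ≤ ∑ I ∈ B.powerset, T := by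
        refine sum_le_sum fun I _ => ?_
        rw [← sum_mul, sum_boole, inv_pow, ← div_eq_mul_inv, div_le_iff₀ (by positivity)]
        exact (h I).trans (mul_le_mul_of_nonneg_left (pow_le_pow_right₀ hγ (by omega)) hT)
    _ = _ := by simp

variable {Z Ω C : Type} [Fintype Z] [DecidableEq Z] [Fintype Ω] [Fintype C] [DecidableEq C]

lemma sum_pairs (grp : Z → ℕ) (F : Z → Z → ℝ) :
    ∑ p : {p : Z × Z // grp p.1 = grp p.2}, F p.1.1 p.1.2 =
      ∑ z, ∑ z' ∈ univ.filter (fun z' => grp z' = grp z), F z z' := by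
  rw [← sum_subtype (univ.filter fun p : Z × Z => grp p.1 = grp p.2) (by simp)
    (fun p => F p.1 p.2), sum_filter, Fintype.sum_prod_type]
  simp only [sum_filter, eq_comm]

lemma block_prod (σ : V → ℝ) (hσ : ∀ v, σ v * σ v = 1) (L : Fin l → V) (p : Fin l) (v v' : V) :
    (∏ r, σ (Function.update L p v r)) * ∏ r, σ (Function.update L p v' r) = σ v * σ v' := by
  rw [← prod_mul_distrib, prod_eq_single p]
  · simp
  · intro r _ hr; simp [hr, hσ]
  · simp

theorem phi_bound (u : Z → R → V) (grp : Z → ℕ) (cls : Ω → Z → C) {m γ T N τ : ℝ} (hγ : 1 ≤ γ)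
    (hl : 0 < l) (hV : (Fintype.card V : ℝ) = l * γ) (hT : 1 ≤ T) (hτ : T ≤ τ) (i : ℕ)
    (hN : (Fintype.card Z : ℝ) ≤ N) (hm : 4 * 2 ^ (i + 1) * T ^ 3 ≤ m)
    (ha : 4 * 2 ^ (i + 1) * T ^ 3 * (2 ^ Fintype.card R * T * γ ^ Fintype.card R) ≤ N * τ)
    (hX : (Fintype.card V ^ l) ^ Fintype.card R ≤ 2 ^ 2 ^ (i + 1)) (hcol : ∀ z z', z ≠ z' →
      m * (univ.filter fun s => cls s z = cls s z').card ≤ Fintype.card Ω)
    (hgrp : ∀ z, ((univ.filter fun z' => grp z' = grp z).card : ℝ) ≤ τ)
    (hcod : ∀ z (I : Finset R), (((univ.filter fun z' => grp z' = grp z).filter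
      fun z' => ∀ i ∈ I, u z' i = u z i).card : ℝ) ≤ T * γ ^ (Fintype.card R / 2 - I.card))
    (b : Z → ℝ) (hb : ∀ z, |b z| ≤ 1) (σ : Ω → (C → Bool) → V → ℝ)
    (hσ : ∀ s g v, σ s g v * σ s g v = 1) :
    ∑ s, ∑ g : C → Bool, ∑ p : {p : Z × Z // grp p.1 = grp p.2},
      (b p.1.1 * sgn (g (cls s p.1.1)) * ∏ i, σ s g (u p.1.1 i)) *
        (b p.1.2 * sgn (g (cls s p.1.2)) * ∏ i, σ s g (u p.1.2 i)) ≤
      Fintype.card Ω * (Fintype.card (C → Bool) * (26 * (N * τ) / T)) := by
  classical
  set q := Fintype.card R with hq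
  set n : ℝ := (Fintype.card V : ℝ) with hn
  have hlR : (0 : ℝ) < l := by exact_mod_cast hl
  have hγ0 : 0 < γ := by linarith
  have hT0 : 0 < T := by linarith
  have hn0 : 0 < n := by rw [hV]; positivity
  have hN0 : 0 ≤ N := (Nat.cast_nonneg _).trans hN
  obtain ⟨B, -, hB⟩ := exists_subset_card_eq (s := (univ : Finset R)) (n := q / 2)
    (by rw [card_univ]; omega)
  have hB' : q / 2 ≤ Bᶜ.card := by rw [card_compl]; omega
  let A := {p : Z × Z // grp p.1 = grp p.2}
  let sw : A → A := fun p => ⟨(p.1.2, p.1.1), p.2.symm⟩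
  let w : A → R → V := fun p i => if i ∈ B then u p.1.2 i else u p.1.1 i
  let rev : A × (R → Fin l × (Fin l → V)) → A × (R → Fin l × (Fin l → V)) := fun e => (sw e.1, e.2)
  have hY : (Fintype.card (R → Fin l × (Fin l → V)) : ℝ) = (l * n ^ l) ^ q := by
    simp [hn, hq]
  have hXc : (Fintype.card (R → Fin l → V) : ℝ) = (n ^ l) ^ q := by simp [hn, hq]
  have hA : (Fintype.card A : ℝ) ≤ N * τ := by
    have := sum_pairs grp fun _ _ => (1 : ℝ)
    simp only [sum_const, card_univ, nsmul_eq_mul, mul_one] at this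
    rw [this]
    refine (sum_le_sum fun z _ => hgrp z).trans ?_
    rw [sum_const, card_univ, nsmul_eq_mul]
    exact mul_le_mul_of_nonneg_right hN (by linarith)
  have hs : ∀ y : A → Z, (∀ p, ∑ p', (if y p' = y p then (1 : ℝ) else 0) *
      ∏ i, ((if w p' i = w p i then 1 else 0) + γ⁻¹) ≤ 2 ^ q * T) →
      ∑ e : A × (R → Fin l × (Fin l → V)), (same (ksrc w) (fun e => y e.1) e : ℝ) ≤
        2 ^ q * T * n ^ q * Fintype.card (A × (R → Fin l × (Fin l → V))) := by
    intro y hy
    refine (same_sum w y hγ0 hV).trans ?_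
    refine (mul_le_mul_of_nonneg_left (sum_le_sum fun p _ => hy p) (by positivity)).trans
      (le_of_eq ?_)
    rw [sum_const, card_univ, nsmul_eq_mul, Fintype.card_prod, Nat.cast_mul, hY, mul_pow]
    ring
  have key := kgraph (ksrc w) rev (fun e => rfl) (fun e => e.1.1.1) cls (m := m)
    (ρ := 2 ^ q * T * n ^ q) (a := N * τ * l ^ q) (by positivity) hT i hm ?_
    (by simpa [hq] using hX) hcol (hs (fun p => p.1.1) fun p => ?_) (hs (fun p => p.1.2) fun p => ?_)
    ?_ ?_ b hb (fun s g L => ∏ i, ∏ r, σ s g (L i r)) ?_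
  · have h1 : ∀ s g, ∑ e : A × (R → Fin l × (Fin l → V)), b e.1.1.1 * b (rev e).1.1.1 *
        sgn (g (cls s e.1.1.1)) * sgn (g (cls s (rev e).1.1.1)) *
        (∏ i, ∏ r, σ s g (ksrc w e i r)) * ∏ i, ∏ r, σ s g (ksrc w (rev e) i r) =
        (l * n ^ l) ^ q * ∑ p : A, (b p.1.1 * sgn (g (cls s p.1.1)) * ∏ i, σ s g (u p.1.1 i)) *
        (b p.1.2 * sgn (g (cls s p.1.2)) * ∏ i, σ s g (u p.1.2 i)) := by
      intro s g
      rw [Fintype.sum_prod_type, mul_sum]
      refine sum_congr rfl fun p _ => ?_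
      rw [← hY, ← card_univ, ← nsmul_eq_mul, ← sum_const]
      refine sum_congr rfl fun Y _ => ?_
      have h2 : (∏ i, ∏ r, σ s g (ksrc w (p, Y) i r)) * ∏ i, ∏ r, σ s g (ksrc w (rev (p, Y)) i r) =
          (∏ i, σ s g (u p.1.1 i)) * ∏ i, σ s g (u p.1.2 i) := by
        rw [← prod_mul_distrib, ← prod_mul_distrib]
        refine prod_congr rfl fun i _ => (block_prod _ (hσ s g) _ _ _ _).trans ?_
        simp only [w, rev, sw]
        split_ifs
        · ring
        · rfl
      rw [mul_assoc, h2]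
      simp only [rev, sw]
      ring
    simp only [h1, ← mul_sum] at key
    refine le_of_mul_le_mul_left (key.trans (le_of_eq ?_)) (by positivity)
    rw [hXc, mul_pow]
    ring
  · rw [hV, mul_pow]
    have := mul_le_mul_of_nonneg_right ha (pow_pos hlR q).le
    linarith
  · refine le_trans (le_of_eq ?_) (block_sum (univ.filter fun z => grp z = grp p.1.2) u (u p.1.2) B
      hγ hT0.le _ hB.ge (hcod _)
      (fun z i => if (if i ∈ B then u z i else u p.1.1 i) = w p i then 1 else 0)
      (fun z i => by split_ifs <;> norm_num) (fun z i => by split_ifs <;> norm_num)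
      fun z i hi => by simp only [w, if_pos hi])
    refine (sum_pairs grp fun z z' => (if z = p.1.1 then (1 : ℝ) else 0) *
      ∏ i, ((if (if i ∈ B then u z' i else u z i) = w p i then 1 else 0) + γ⁻¹)).trans ?_
    simp only [← mul_sum]
    simp only [ite_mul, one_mul, zero_mul, sum_ite_eq', mem_univ, if_true, p.2]
  · refine le_trans (le_of_eq ?_) (block_sum (univ.filter fun z => grp z = grp p.1.1) u (u p.1.1) Bᶜ
      hγ hT0.le _ hB' (hcod _)
      (fun z i => if (if i ∈ B then u p.1.2 i else u z i) = w p i then 1 else 0)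
      (fun z i => by split_ifs <;> norm_num) (fun z i => by split_ifs <;> norm_num)
      fun z i hi => by simp only [w, if_neg (mem_compl.1 hi)])
    have hsw : Function.Involutive sw := fun p => rfl
    rw [← Equiv.sum_comp hsw.toPerm]
    refine (sum_pairs grp fun z z' => (if z = p.1.2 then (1 : ℝ) else 0) *
      ∏ i, ((if (if i ∈ B then u z i else u z' i) = w p i then 1 else 0) + γ⁻¹)).trans ?_
    simp only [← mul_sum]
    simp only [ite_mul, one_mul, zero_mul, sum_ite_eq', mem_univ, if_true, p.2]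
  · rw [Fintype.card_prod, Nat.cast_mul, hY, hXc, mul_pow, ← mul_assoc]
    gcongr
  · have h1 : ((univ.filter fun e : A × (R → Fin l × (Fin l → V)) =>
        e.1.1.1 = (rev e).1.1.1).card : ℝ) ≤ N * (l * n ^ l) ^ q := by
      refine le_trans ?_ (mul_le_mul_of_nonneg_right hN (by positivity))
      rw [← hY, ← Nat.cast_mul, ← Fintype.card_prod, ← card_univ, Nat.cast_le]
      refine card_le_card_of_injOn (fun e => (e.1.1.1, e.2)) (fun _ _ => mem_univ _) ?_
      rintro ⟨⟨⟨z₁, z₁'⟩, h₁⟩, Y₁⟩ k₁ ⟨⟨⟨z₂, z₂'⟩, h₂⟩, Y₂⟩ k₂ h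
      obtain rfl : z₁ = z₁' := (mem_filter.1 k₁).2
      obtain rfl : z₂ = z₂' := (mem_filter.1 k₂).2
      obtain ⟨rfl, rfl⟩ := Prod.mk.inj h
      rfl
    refine (mul_le_mul hτ h1 (Nat.cast_nonneg _) (by linarith)).trans (le_of_eq ?_)
    rw [hXc, mul_pow]
    ring
  · intro s g L
    rw [abs_prod]
    refine le_of_eq (prod_eq_one fun i _ => ?_)
    rw [abs_prod]
    exact prod_eq_one fun r _ => by
      rcases mul_self_eq_one_iff.1 (hσ s g (L i r)) with h | h <;> simp [h]

lemma cs_pairs (grp : Z → ℕ) (y : Z → ℝ) : (∑ z, y z) ^ 2 ≤ (univ.image grp).card *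
    ∑ p : {p : Z × Z // grp p.1 = grp p.2}, y p.1.1 * y p.1.2 := by
  rw [sum_pairs grp fun z z' => y z * y z',
    ← sum_fiberwise_of_maps_to (g := grp) (t := univ.image grp) (fun z _ => mem_image_of_mem _ (mem_univ z)),
    ← sum_fiberwise_of_maps_to (s := univ) (g := grp) (t := univ.image grp)
      (fun z _ => mem_image_of_mem _ (mem_univ z))]
  refine sq_sum_le_card_mul_sum_sq.trans (le_of_eq ?_)
  congr 1
  refine sum_congr rfl fun j _ => ?_
  rw [sq, sum_mul_sum]
  exact sum_congr rfl fun z hz => by rw [(mem_filter.1 hz).2]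

theorem refute {t T g : ℕ} (ht : 2 ≤ t) (e : Z → Fin t → V) (cls : Ω → Z → C) {m δ : ℝ}
    (hg : 1 ≤ g) (hl : 0 < l) (hV : Fintype.card V = l * g ^ 2) (hT : 1 ≤ T) (i : ℕ)
    (hm : 4 * 2 ^ (i + 1) * (T : ℝ) ^ 3 ≤ m)
    (ha : 4 * 2 ^ (i + 1) * T ^ 3 * (2 ^ t * g ^ t) ≤ Fintype.card Z)
    (hl2 : l * T * g ^ t ≤ Fintype.card Z)
    (hX : (Fintype.card V ^ l) ^ t ≤ 2 ^ 2 ^ (i + 1)) (hcol : ∀ z z', z ≠ z' →
      m * (univ.filter fun s => cls s z = cls s z').card ≤ Fintype.card Ω)
    (hδ : 0 < δ) (hδT : 52 ≤ δ ^ 2 * T) (b : Z → ℝ) (hb : ∀ z, |b z| ≤ 1)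
    (σ : Ω → (C → Bool) → V → ℝ) (hσ : ∀ s g v, σ s g v * σ s g v = 1) :
    ∑ s, ∑ G : C → Bool, ∑ z, b z * sgn (G (cls s z)) * ∏ i, σ s G (e z i) ≤
      Fintype.card Ω * (Fintype.card (C → Bool) * (2 ^ t * (δ * Fintype.card Z))) := by
  classical
  obtain ⟨grp, piv, -, k2, k3, k4, k5⟩ := decomp ⟨0, by omega⟩ e (fun j => T * g ^ (t - 2 * j))
    (fun j => by positivity) univ
  set N := Fintype.card Z with hN
  have hN0 : (0 : ℝ) < N := by exact_mod_cast lt_of_lt_of_le (by positivity) hl2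
  have hT0 : (0 : ℝ) < T := by exact_mod_cast hT
  have hgR : (1 : ℝ) ≤ g := by exact_mod_cast hg
  have key : ∀ P : Finset (Fin t), ∑ s, ∑ G : C → Bool, ∑ z : {z // piv z = P},
      b z * sgn (G (cls s z)) * ∏ i, σ s G (e z i) ≤
      Fintype.card Ω * (Fintype.card (C → Bool) * (δ * N)) := by
    intro P
    have hq : Fintype.card (Pᶜ : Finset (Fin t)) = t - P.card := by
      rw [Fintype.card_coe, card_compl, Fintype.card_fin]
    have hPt : P.card ≤ t := by simpa using card_le_univ P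
    set τ := T * g ^ (t - 2 * P.card) with hτ
    have hτ0 : (0 : ℝ) < τ := by rw [hτ]; positivity
    have hcod : ∀ (z : {z // piv z = P}) (I : Finset (Pᶜ : Finset (Fin t))),
        ((univ.filter fun z' : {z // piv z = P} => grp z' = grp z).filter
        fun z' : {z // piv z = P} => ∀ i ∈ I, e z' i = e z i).card ≤
        T * g ^ (t - 2 * (P.card + I.card)) := by
      intro z I
      have h1 := k4 z (mem_univ _) (P ∪ I.map (Function.Embedding.subtype _))
        (z.2.trans_subset subset_union_left)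
      rw [card_union_of_disjoint (disjoint_left.2 fun i h2 h3 => by
        obtain ⟨j, -, rfl⟩ := mem_map.1 h3
        exact mem_compl.1 j.2 h2), card_map] at h1
      refine le_trans (card_le_card_of_injOn Subtype.val (fun z' hz' => ?_)
        Subtype.val_injective.injOn) h1
      simp only [coe_filter, mem_filter, mem_univ, true_and, Set.mem_ofPred_eq] at hz' ⊢
      refine ⟨hz'.1, fun i hi => ?_⟩
      rcases mem_union.1 hi with h | h
      · exact (k3 _ (mem_univ _) _ (mem_univ _) hz'.1).2 i (z'.2.symm ▸ h)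
      · obtain ⟨j, hj, rfl⟩ := mem_map.1 h
        exact hz'.2 j hj
    have hphi := phi_bound (R := (Pᶜ : Finset (Fin t))) (fun (z : {z // piv z = P}) i => e z i)
      (fun z => grp z) (fun s z => cls s z) (m := m) (γ := (g : ℝ) ^ 2) (T := T) (N := N) (τ := τ)
      (one_le_pow₀ hgR) hl (by exact_mod_cast hV) (by exact_mod_cast hT)
      (by exact_mod_cast Nat.le_mul_of_pos_right _ (by positivity)) i
      (by exact_mod_cast Fintype.card_subtype_le _) hm ?_
      (le_trans (Nat.pow_le_pow_right (by rw [hV]; positivity) (by omega)) hX)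
      (fun z z' h => hcol _ _ (Subtype.coe_ne_coe.2 h)) (fun z => ?_) (fun z I => ?_)
      (fun z => b z) (fun z => hb z) σ hσ
    · set p : ℝ := ((univ.image fun z : {z // piv z = P} => grp z).card : ℝ) with hp
      have hp0 : 0 ≤ p := Nat.cast_nonneg _
      have hpτ : p * τ ≤ 2 * N := by
        have h1 : (univ.image fun z : {z // piv z = P} => grp z) ⊆
            (univ.filter fun z => piv z = P).image grp := by
          intro y hy
          obtain ⟨z, -, rfl⟩ := mem_image.1 hy
          exact mem_image_of_mem _ (mem_filter.2 ⟨mem_univ _, z.2⟩)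
        have h2 := (Nat.mul_le_mul_right τ (card_le_card h1)).trans (k5 P)
        have h3 : (univ.image fun z => e z ⟨0, by omega⟩).card * (T * g ^ (t - 2 * 1)) ≤ N := by
          refine (Nat.mul_le_mul_right _ (card_le_univ _)).trans (le_trans (le_of_eq ?_) hl2)
          rw [hV, show g ^ t = g ^ 2 * g ^ (t - 2 * 1) by rw [← pow_add]; congr 1; omega]
          ring
        rw [card_univ, ← hN] at h2
        rw [hp]
        exact_mod_cast h2.trans (by omega)
      have h1 : ∀ s (G : C → Bool), ∑ z : {z // piv z = P},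
          b z * sgn (G (cls s z)) * ∏ i, σ s G (e z i) ≤ δ * N / 2 + p / (2 * (δ * N)) *
          ∑ r : {r : {z // piv z = P} × {z // piv z = P} // grp r.1 = grp r.2},
          (b r.1.1 * sgn (G (cls s r.1.1)) * ∏ i : (Pᶜ : Finset (Fin t)), σ s G (e r.1.1 i)) *
          (b r.1.2 * sgn (G (cls s r.1.2)) * ∏ i : (Pᶜ : Finset (Fin t)), σ s G (e r.1.2 i)) := by
        intro s G
        have h2 := cs_pairs (fun z : {z // piv z = P} => grp z)
          fun z => b z * sgn (G (cls s z)) * ∏ i, σ s G (e z i)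
        have h4 : ∀ r : {r : {z // piv z = P} × {z // piv z = P} // grp r.1 = grp r.2},
            (b r.1.1 * sgn (G (cls s r.1.1)) * ∏ i, σ s G (e r.1.1 i)) *
            (b r.1.2 * sgn (G (cls s r.1.2)) * ∏ i, σ s G (e r.1.2 i)) =
            (b r.1.1 * sgn (G (cls s r.1.1)) * ∏ i : (Pᶜ : Finset (Fin t)), σ s G (e r.1.1 i)) *
            (b r.1.2 * sgn (G (cls s r.1.2)) * ∏ i : (Pᶜ : Finset (Fin t)), σ s G (e r.1.2 i)) := by
          intro r
          have h3 : (∏ i ∈ P, σ s G (e r.1.1 i)) * ∏ i ∈ P, σ s G (e r.1.2 i) = 1 := by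
            rw [← prod_mul_distrib]
            refine prod_eq_one fun i hi => ?_
            rw [(k3 _ (mem_univ _) _ (mem_univ _) r.2).2 i (r.1.1.2.symm ▸ hi), hσ]
          rw [prod_coe_sort Pᶜ fun i => σ s G (e r.1.1 i), prod_coe_sort Pᶜ fun i => σ s G (e r.1.2 i),
            ← prod_mul_prod_compl P, ← prod_mul_prod_compl P]
          linear_combination (b r.1.1 * sgn (G (cls s r.1.1)) * ∏ i ∈ Pᶜ, σ s G (e r.1.1 i)) *
            (b r.1.2 * sgn (G (cls s r.1.2)) * ∏ i ∈ Pᶜ, σ s G (e r.1.2 i)) * h3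
        rw [← hp] at h2
        simp only [h4] at h2
        rw [div_mul_eq_mul_div, ← sub_le_iff_le_add', le_div_iff₀ (by positivity)]
        nlinarith [sq_nonneg (∑ z : {z // piv z = P},
          b z * sgn (G (cls s z)) * ∏ i, σ s G (e z i) - δ * N)]
      refine (sum_le_sum fun s _ => sum_le_sum fun G _ => h1 s G).trans ?_
      simp only [sum_add_distrib, ← mul_sum, sum_const, card_univ, nsmul_eq_mul]
      have h2 := mul_le_mul_of_nonneg_left hphi (show 0 ≤ p / (2 * (δ * N)) by positivity)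
      have h3 : p / (2 * (δ * N)) * (26 * (N * τ) / T) ≤ δ * N / 2 := by
        rw [div_mul_div_comm, div_le_div_iff₀ (by positivity) (by positivity)]
        nlinarith [mul_le_mul_of_nonneg_left hpτ hN0.le,
          mul_le_mul_of_nonneg_left hδT (mul_pos hN0 hN0).le]
      have h4 := mul_le_mul_of_nonneg_left h3 (show (0 : ℝ) ≤ Fintype.card Ω *
        Fintype.card (C → Bool) by positivity)
      linarith
    · have h1 : 4 * 2 ^ (i + 1) * T ^ 3 * (2 ^ (t - P.card) * T * (g ^ 2) ^ (t - P.card)) ≤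
          N * τ := by
        refine le_trans ?_ (Nat.mul_le_mul_right τ ha)
        have h2 : (g ^ 2) ^ (t - P.card) ≤ g ^ t * g ^ (t - 2 * P.card) := by
          rw [← pow_mul, ← pow_add]; exact Nat.pow_le_pow_right hg (by omega)
        have h3 : 2 ^ (t - P.card) ≤ 2 ^ t := Nat.pow_le_pow_right (by norm_num) (by omega)
        calc _ ≤ 4 * 2 ^ (i + 1) * T ^ 3 * (2 ^ t * T * (g ^ t * g ^ (t - 2 * P.card))) := by gcongr
          _ = _ := by rw [hτ]; ring
      rw [hq]
      exact_mod_cast h1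
    · have := hcod z ∅
      simp only [notMem_empty, false_imp_iff, imp_true_iff, filter_true, card_empty,
        add_zero] at this
      exact_mod_cast this
    · have h1 : 0 < P.card := card_pos.2 (z.2 ▸ k2 z (mem_univ _))
      have h2 : g ^ (t - 2 * (P.card + I.card)) ≤ (g ^ 2) ^ ((t - P.card) / 2 - I.card) := by
        rw [← pow_mul]; exact Nat.pow_le_pow_right hg (by omega)
      rw [hq]
      exact_mod_cast (hcod z I).trans (Nat.mul_le_mul_left _ h2)
  calc _ = ∑ P : Finset (Fin t), ∑ s, ∑ G : C → Bool, ∑ z : {z // piv z = P},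
        b z * sgn (G (cls s z)) * ∏ i, σ s G (e z i) := by
        symm
        rw [sum_comm]
        refine sum_congr rfl fun s _ => ?_
        rw [sum_comm]
        exact sum_congr rfl fun G _ => Fintype.sum_fiberwise piv
          fun z => b z * sgn (G (cls s z)) * ∏ i, σ s G (e z i)
    _ ≤ _ := by
        refine (sum_le_sum fun P _ => key P).trans (le_of_eq ?_)
        simp only [sum_const, card_univ, Fintype.card_finset, Fintype.card_fin, nsmul_eq_mul]
        push_cast
        ring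

end Pool.Agent.MP_5e38ef_lc.KK
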