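import Pool.Agent.MP_5e38ef_lc.KK.Graph
import Pool.Agent.MP_5e38ef_lc.KK.Defs
import Pool.Agent.MP_5e38ef_lc.Main

namespace Pool.Agent.MP_5e38ef_lc.KK
open Finset

section Transcript
variable {S W : ℕ}

lemma reads_iff (addr : List (Fin W) → Fin S) (l : List (Fin W)) :
    ∃ e : Fin l.length → Fin S × Fin W, ∀ M : Fin S → Fin W,
      reads addr M l.length = l ↔ ∀ i, M (e i).1 = (e i).2 := by
  induction l with
  | nil => exact ⟨Fin.elim0, fun M => by simp [reads]⟩
  | cons x l ih =>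
    obtain ⟨e, he⟩ := ih
    refine ⟨Fin.cons (addr l, x) e, fun M => ?_⟩
    refine Iff.trans ?_ Fin.forall_fin_succ.symm
    simp only [List.length_cons, reads, List.cons.injEq, Fin.cons_zero, Fin.cons_succ, ← he]
    exact and_congr_left fun h => by rw [h]

lemma reads_length (addr : List (Fin W) → Fin S) (M : Fin S → Fin W) (t : ℕ) :
    (reads addr M t).length = t := by
  induction t with
  | zero => rfl
  | succ t ih => simp [reads, ih]

/-- The sign of a literal. -/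
def sig (M : Fin S → Fin W) : Option (Fin S × Fin W) → ℝ
  | none => 1
  | some p => if M p.1 = p.2 then 1 else -1

lemma best {Ω : Type} [Fintype Ω] (hW : 0 < W) (t : ℕ) (M : Ω → Fin S → Fin W) (a : Ω → ℝ)
    (addr : List (Fin W) → Fin S) (out : List (Fin W) → Bool) :
    ∃ (c : Bool) (e : Fin t → Option (Fin S × Fin W)),
      ∑ ω, a ω * sgn (out (reads addr (M ω) t)) ≤
        W ^ t * ∑ ω, sgn c * a ω * ∏ i, sig (M ω) (e i) := by
  classical
  have h1 : ∀ l : List.Vector (Fin W) t, ∃ e : Fin t → Fin S × Fin W, ∀ M : Fin S → Fin W,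
      reads addr M t = l.1 ↔ ∀ i, M (e i).1 = (e i).2 := by
    rintro ⟨l, rfl⟩; exact reads_iff addr l
  choose e he using h1
  set X : List.Vector (Fin W) t × (Fin t → Bool) → ℝ := fun p =>
    ∑ ω, sgn (out p.1.1) * a ω * ∏ i, sig (M ω) (if p.2 i then some (e p.1 i) else none) with hX
  have : Nonempty (List.Vector (Fin W) t) := ⟨List.Vector.replicate t ⟨0, hW⟩⟩
  obtain ⟨p, hp⟩ := Finite.exists_max X
  refine ⟨out p.1.1, fun i => if p.2 i then some (e p.1 i) else none, ?_⟩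
  have h2 : ∑ q, X q = 2 ^ t * ∑ ω, a ω * sgn (out (reads addr (M ω) t)) := by
    simp only [hX]
    rw [sum_comm, mul_sum]
    refine sum_congr rfl fun ω _ => ?_
    have h3 : ∀ l : List.Vector (Fin W) t, ∑ B : Fin t → Bool,
        ∏ i, sig (M ω) (if B i then some (e l i) else none) =
        if l = ⟨reads addr (M ω) t, reads_length _ _ _⟩ then 2 ^ t else 0 := by
      intro l
      rw [← Fintype.prod_sum fun i (b : Bool) => sig (M ω) (if b then some (e l i) else none)]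
      simp only [Fintype.sum_bool, if_true, Bool.false_eq_true, if_false, sig]
      split_ifs with h
      · have h4 := (he l (M ω)).1 (by rw [h])
        simp [h4, one_add_one_eq_two]
      · obtain ⟨i, hi⟩ := not_forall.1 (mt (he l (M ω)).2 fun h4 => h (Subtype.ext h4.symm))
        exact prod_eq_zero (mem_univ i) (by simp [hi])
    rw [Fintype.sum_prod_type]
    simp only [← mul_sum, h3, mul_ite, mul_zero, sum_ite_eq', mem_univ, if_true]
    ring
  have h3 := sum_le_card_nsmul univ X _ fun q _ => hp q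
  rw [h2, card_univ, Fintype.card_prod, card_vector, nsmul_eq_mul] at h3
  simp only [Fintype.card_fin, Fintype.card_fun, Fintype.card_bool, Nat.cast_mul, Nat.cast_pow,
    Nat.cast_ofNat] at h3
  refine le_of_mul_le_mul_left (h3.trans (le_of_eq ?_)) (show (0 : ℝ) < 2 ^ t by positivity)
  simp only [hX]
  ring

end Transcript

variable {k n m : ℕ}

lemma shift_lt (hn : (k + 1) * m ≤ n) (s : Fin k × Fin n → Fin m) (j : Fin m) (x : Fin k → Fin n) :
    j + ∑ a, (s (a, x a) : ℕ) < n := by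
  have h1 : ∑ a, (s (a, x a) : ℕ) ≤ ∑ _a : Fin k, m := sum_le_sum fun a _ => (s _).2.le
  simp only [sum_const, card_univ, Fintype.card_fin, smul_eq_mul] at h1
  have := j.2
  nlinarith

/-- The class of a query: its offset plus the hidden shifts. -/
def cls (hn : (k + 1) * m ≤ n) (s : Fin k × Fin n → Fin m) (z : Fin m × (Fin k → Fin n)) : Fin n :=
  ⟨z.1 + ∑ a, (s (a, z.2 a) : ℕ), shift_lt hn s z.1 z.2⟩

lemma cls_col (hn : (k + 1) * m ≤ n) (z z' : Fin m × (Fin k → Fin n)) (h : z ≠ z') :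
    (m : ℝ) * (univ.filter fun s => cls hn s z = cls hn s z').card ≤
      Fintype.card (Fin k × Fin n → Fin m) := by
  have hm : 0 < m := Fin.pos z.1
  have hf : Fresh (cls hn) [z'] z := by
    by_cases h2 : z.2 = z'.2
    · refine Or.inl fun s hs => h (Prod.ext (Fin.ext ?_) h2)
      have := congrArg Fin.val (List.mem_singleton.1 hs)
      simp only [cls, h2] at this
      omega
    · obtain ⟨a, ha⟩ := Function.ne_iff.1 h2
      refine Or.inr ⟨(a, z.2 a), fun y hy s v => Fin.ext ?_, fun s v v' h => ?_⟩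
      · rw [List.mem_singleton.1 hy]
        simp only [cls]
        congr 1
        refine sum_congr rfl fun a' _ => ?_
        rw [Function.update_of_ne]
        intro h
        obtain ⟨rfl, h⟩ := Prod.mk.inj h
        exact ha h.symm
      · have h1 := congrArg Fin.val h
        have h2 : ∀ u : Fin m, ∑ a', (Function.update s (a, z.2 a) u (a', z.2 a') : ℕ) =
            u + ∑ a' ∈ univ.erase a, (s (a', z.2 a') : ℕ) := by
          intro u
          rw [← add_sum_erase _ _ (mem_univ a), Function.update_self]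
          congr 1
          refine sum_congr rfl fun a' ha' => ?_
          rw [Function.update_of_ne]
          intro h
          exact (mem_erase.1 ha').1 (Prod.mk.inj h).1
        simp only [cls, h2] at h1
        exact Fin.ext (by omega)
  have := fresh_le hm (cls hn) [z'] z hf one_pos
  simp only [List.map_cons, List.map_nil, psi, ite_self, mul_one, one_mul, List.mem_singleton,
    sum_boole, sum_const, card_univ, nsmul_eq_mul, List.length_singleton, Nat.cast_one] at this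
  rwa [div_mul_eq_mul_div, le_div_iff₀ (by exact_mod_cast hm), one_mul, mul_comm] at this

/-- The arrays of the hard instance. -/
def arr (s : Fin k × Fin n → Fin m) (G : Fin n → Bool) : Fin (k + 1) → Fin n → ℕ :=
  Fin.lastCases (fun x => if G x = true then n - x else n + 1)
    fun a x => x * n ^ (a : ℕ) * (2 * n + 2) + s (a, x)

/-- The integer that a query stands for. -/
def qry (z : Fin m × (Fin k → Fin n)) : ℕ :=
  (∑ a, (z.2 a : ℕ) * n ^ (a : ℕ)) * (2 * n + 2) + (n - z.1)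

lemma sum_arr (s : Fin k × Fin n → Fin m) (G : Fin n → Bool) (x : Fin (k + 1) → Fin n) :
    ∑ a, arr s G a (x a) = (∑ a : Fin k, (x a.castSucc : ℕ) * n ^ (a : ℕ)) * (2 * n + 2) +
      (∑ a : Fin k, (s (a, x a.castSucc) : ℕ) +
        if G (x (Fin.last k)) = true then n - x (Fin.last k) else n + 1) := by
  rw [Fin.sum_univ_castSucc]
  simp only [arr, Fin.lastCases_castSucc, Fin.lastCases_last, sum_add_distrib, sum_mul, add_assoc]

lemma arr_iff (hn : (k + 1) * m ≤ n) (s : Fin k × Fin n → Fin m) (G : Fin n → Bool)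
    (z : Fin m × (Fin k → Fin n)) :
    (∃ x : Fin (k + 1) → Fin n, qry z = ∑ a, arr s G a (x a)) ↔ G (cls hn s z) = true := by
  constructor
  · rintro ⟨x, hx⟩
    rw [sum_arr, qry] at hx
    have h1 := shift_lt hn s z.1 fun a => x a.castSucc
    have h0 := (x (Fin.last k)).2
    obtain ⟨h4, h5⟩ := divmod_eq (by omega) (by split_ifs <;> omega) hx
    have h8 : z.2 = fun a => x a.castSucc := by
      apply finFunctionFinEquiv.injective
      apply Fin.ext
      rw [finFunctionFinEquiv_apply, finFunctionFinEquiv_apply, h4]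
    split_ifs at h5 with h3
    · rw [← h3]
      congr 1
      refine Fin.ext ?_
      simp only [cls, h8]
      omega
    · omega
  · intro hg
    refine ⟨Fin.lastCases (cls hn s z) z.2, ?_⟩
    have h1 := shift_lt hn s z.1 z.2
    rw [sum_arr, qry]
    simp only [Fin.lastCases_castSucc, Fin.lastCases_last, hg, if_true]
    simp only [cls]
    omega

lemma qry_le (hn : 0 < n) (z : Fin m × (Fin k → Fin n)) : qry z ≤ 4 * n ^ (k + 1) := by
  calc qry z ≤ (∑ a, (z.2 a : ℕ) * n ^ (a : ℕ) + 1) * (2 * n + 2) := by rw [qry, add_mul]; omega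
    _ ≤ n ^ k * (4 * n) := Nat.mul_le_mul (digits_lt z.2) (by omega)
    _ = _ := by ring

lemma arr_le (hn : (k + 1) * m ≤ n) (s : Fin k × Fin n → Fin m) (G : Fin n → Bool)
    (a : Fin (k + 1)) (x : Fin n) : arr s G a x ≤ 4 * n ^ (k + 1) := by
  have hn0 : 0 < n := Fin.pos x
  refine Fin.lastCases ?_ (fun a => ?_) a
  · have := Nat.le_self_pow (n := k + 1) (by omega) n
    simp only [arr, Fin.lastCases_last]
    split_ifs <;> omega
  · simp only [arr, Fin.lastCases_castSucc]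
    have h1 : (s (a, x) : ℕ) < n := by
      have := (s (a, x)).2
      nlinarith
    have h2 : (x + 1) * n ^ (a : ℕ) ≤ n ^ k := by
      calc _ ≤ n * n ^ (a : ℕ) := Nat.mul_le_mul_right _ x.2
        _ = n ^ (a + 1 : ℕ) := by ring
        _ ≤ _ := Nat.pow_le_pow_right hn0 a.2
    have h3 : 0 < n ^ (a : ℕ) := by positivity
    calc _ ≤ (x + 1) * n ^ (a : ℕ) * (2 * n + 2) := by nlinarith
      _ ≤ n ^ k * (4 * n) := Nat.mul_le_mul h2 (by omega)
      _ = _ := by ring

/-- The parameters of the tuple graph fit the instance. -/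
def Fits (k n m t l g i T : ℕ) : Prop :=
  (k + 1) * m ≤ n ∧ 2 ≤ t ∧ 1 ≤ g ∧ g ^ t ≤ n ^ k ∧ 0 < l ∧ l ≤ 2 ^ (i + 1) ∧ 1 ≤ T ∧
    ((l * g ^ 2) ^ l) ^ t ≤ 2 ^ 2 ^ (i + 1) ∧ 4 * 2 ^ (i + 1) * T ^ 3 * 2 ^ t ≤ m

lemma Fits.le {t l g i T : ℕ} (h : Fits k n m t l g i T) : l * T * g ^ t ≤ m * n ^ k := by
  obtain ⟨-, -, -, hgt, -, hlQ, -, -, hm⟩ := h
  refine Nat.mul_le_mul (le_trans ?_ hm) hgt
  have h2 : T ≤ T ^ 3 := Nat.le_self_pow (by norm_num) T
  calc l * T ≤ 2 ^ (i + 1) * T ^ 3 := Nat.mul_le_mul hlQ h2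
    _ ≤ 4 * 2 ^ (i + 1) * T ^ 3 * 1 := by nlinarith [Nat.zero_le (2 ^ (i + 1) * T ^ 3)]
    _ ≤ _ := Nat.mul_le_mul_left _ Nat.one_le_two_pow

theorem inst_refute {t l g i T : ℕ} (h : Fits k n m t l g i T) {V : Type} [Fintype V] [Nonempty V]
    (hV : Fintype.card V ≤ l * g ^ 2) {δ : ℝ} (hδ : 0 < δ) (hδT : 52 ≤ δ ^ 2 * T)
    (e : Fin m × (Fin k → Fin n) → Fin t → V) (b : Fin m × (Fin k → Fin n) → ℝ)
    (hb : ∀ z, |b z| ≤ 1) (σ : (Fin k × Fin n → Fin m) × (Fin n → Bool) → V → ℝ)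
    (hσ : ∀ p v, σ p v * σ p v = 1) :
    ∑ z, ∑ p : (Fin k × Fin n → Fin m) × (Fin n → Bool),
      b z * sgn (p.2 (cls h.1 p.1 z)) * ∏ i, σ p (e z i) ≤
      Fintype.card ((Fin k × Fin n → Fin m) × (Fin n → Bool)) * (2 ^ t * (δ * (m * n ^ k))) := by
  classical
  have hle := h.le
  obtain ⟨hn, ht, hg, hgt, hl, hlQ, hT1, hX, hm⟩ := h
  have hZ : Fintype.card (Fin m × (Fin k → Fin n)) = m * n ^ k := by simp
  obtain ⟨ι⟩ := Function.Embedding.nonempty_of_card_le (α := V) (β := Fin (l * g ^ 2))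
    (by simpa using hV)
  have hι := Function.leftInverse_invFun ι.injective
  have key := refute (l := l) (T := T) (g := g) ht (fun z i => ι (e z i)) (cls hn) (m := m)
    hg hl (by simp) hT1 i
    (by exact_mod_cast le_trans (Nat.le_mul_of_pos_right _ (by positivity)) hm)
    (by rw [hZ, ← mul_assoc]; exact Nat.mul_le_mul hm hgt) (hZ ▸ hle) (by simpa using hX)
    (cls_col hn) hδ hδT b hb (fun s G v => σ (s, G) (Function.invFun ι v)) fun s G v => hσ _ _
  simp only [hι _] at key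
  rw [sum_comm, Fintype.sum_prod_type, Fintype.card_prod]
  refine key.trans (le_of_eq ?_)
  rw [hZ]
  push_cast
  ring

lemma ans_iff (hn : (k + 1) * m ≤ n) (s : Fin k × Fin n → Fin m) (G : Fin n → Bool)
    (z : Fin m × (Fin k → Fin n)) :
    (∃ x : Fin (k + 1) → Fin n, (qry z : ℤ) = ∑ a, (arr s G a (x a) : ℤ)) ↔
      G (cls hn s z) = true := by
  rw [← arr_iff]
  exact exists_congr fun x => by exact_mod_cast Iff.rfl

theorem finite_bound {U S w t l g i : ℕ} (hU : 4 * n ^ (k + 1) ≤ U)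
    (H : SolvesR (k + 1) n U S w t) (h : Fits k n m t l g i (1024 * (2 * 2 ^ w) ^ (2 * t))) :
    l * g ^ 2 ≤ S * 2 ^ w := by
  classical
  by_contra hS
  obtain ⟨r, pre, addr, out, hr, H⟩ := H
  have hn := h.1
  have hm0 : 0 < m := lt_of_lt_of_le (by positivity) h.2.2.2.2.2.2.2.2
  have hn0 : 0 < n := lt_of_lt_of_le (by positivity) hn
  let Ω := (Fin k × Fin n → Fin m) × (Fin n → Bool)
  let Z := Fin m × (Fin k → Fin n)
  have hZ : Fintype.card Z = m * n ^ k := by simp [Z]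
  let M : Fin r → Ω → Fin S → Fin (2 ^ w) := fun ω p => pre ω fun a x => arr p.1 p.2 a x
  let F : Fin r → Z → Ω → ℝ := fun ω z p =>
    sgn (p.2 (cls hn p.1 z)) * sgn (out ω (qry z) (reads (addr ω (qry z)) (M ω p) t))
  have h1 : ∀ z p, (r : ℝ) / 3 ≤ ∑ ω, F ω z p := by
    intro z p
    have h2 := H (fun a x => arr p.1 p.2 a x)
      (fun a x => ⟨by positivity, by exact_mod_cast (arr_le hn _ _ a x).trans hU⟩) (qry z)
      (by positivity) (by
        exact_mod_cast ((qry_le hn0 z).trans hU).trans (Nat.le_mul_of_pos_left _ (by omega)))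
    simp only [ans_iff hn] at h2
    have h4 : ∀ ω, F ω z p = 2 * (if (out ω (qry z) (reads (addr ω (qry z)) (M ω p) t) = true ↔
        p.2 (cls hn p.1 z) = true) then 1 else 0) - 1 := by
      intro ω
      simp only [F]
      cases out ω (qry z) (reads (addr ω (qry z)) (M ω p) t) <;> cases p.2 (cls hn p.1 z) <;>
        norm_num [sgn]
    simp only [h4, sum_sub_distrib, ← mul_sum, sum_boole, sum_const, card_univ, Fintype.card_fin,
      nsmul_eq_mul]
    have h5 := (Nat.cast_le (α := ℝ)).2 h2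
    push_cast at h5
    linarith
  obtain ⟨ω, -, hω⟩ := exists_le_of_sum_le (s := univ) (f := fun _ : Fin r =>
    (Fintype.card Z : ℝ) * Fintype.card Ω / 3) (g := fun ω => ∑ z, ∑ p, F ω z p)
    ⟨⟨0, hr⟩, mem_univ _⟩ (by
      rw [sum_comm (s := univ) (f := fun ω z => ∑ p, F ω z p)]
      refine le_trans (le_of_eq ?_) (sum_le_sum fun z _ =>
        (sum_le_sum fun p _ => h1 z p).trans_eq sum_comm)
      simp only [sum_const, card_univ, Fintype.card_fin, nsmul_eq_mul]
      ring)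
  choose c e hce using fun z : Z => best (by positivity) t (M ω) (fun p => sgn (p.2 (cls hn p.1 z)))
    (addr ω (qry z)) (out ω (qry z))
  have hW : (0 : ℝ) < (2 * 2 ^ w) ^ t := by positivity
  have key := inst_refute h (V := Option (Fin S × Fin (2 ^ w)))
    (by simp only [Fintype.card_option, Fintype.card_prod, Fintype.card_fin]; omega)
    (δ := 1 / (4 * (2 * 2 ^ w) ^ t)) (by positivity) ?_ e (fun z => sgn (c z))
    (fun z => (abs_sgn _).le) (fun p => sig (M ω p)) ?_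
  · have h2 := (sum_le_sum (s := univ) fun z _ => hce z).trans_eq (mul_sum _ _ _).symm
    have h3 := hω.trans (h2.trans (mul_le_mul_of_nonneg_left key (by positivity)))
    have h4 : (0 : ℝ) < (Fintype.card Z : ℝ) * Fintype.card Ω := by
      have : Nonempty (Fin m) := ⟨⟨0, hm0⟩⟩
      rw [hZ]
      have := Fintype.card_pos (α := Ω)
      positivity
    have h5 : ((2 ^ w : ℕ) : ℝ) ^ t * (Fintype.card Ω *
        (2 ^ t * (1 / (4 * (2 * 2 ^ w) ^ t) * (m * n ^ k)))) =
        (Fintype.card Z : ℝ) * Fintype.card Ω / 4 := by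
      rw [hZ, mul_pow]
      push_cast
      field_simp
    linarith
  · rw [mul_comm 2 t, pow_mul]
    push_cast
    field_simp
    norm_num
  · intro p v
    cases v with
    | none => simp [sig]
    | some p => simp only [sig]; split_ifs <;> norm_num

theorem exists_fits {t g L E T : ℕ} (ht : 2 ≤ t) (hg : 1 ≤ g) (hgt : g ^ t ≤ n ^ k)
    (hL : n ≤ 2 ^ L) (hL0 : 0 < L) (hT : 1 ≤ T)
    (hE : E = 8 * T ^ 3 * 2 ^ t * (t * (k + 1) * L) * (k + 1)) (hEn : E ≤ n) :
    ∃ m l i, Fits k n m t l g i T ∧ n ≤ 2 * E * l := by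
  have hE0 : 0 < E := by rw [hE]; positivity
  set l := n / E with hl
  have hl0 : 0 < l := Nat.div_pos hEn hE0
  have hl1 : l * E ≤ n := Nat.div_mul_le_self _ _
  have hl2 : n ≤ 2 * E * l := by
    have := Nat.lt_mul_div_succ n hE0
    rw [← hl] at this
    nlinarith
  set X := l * (t * (k + 1) * L) with hX
  have hX1 : 2 * l ≤ X := by
    rw [hX, mul_comm 2]
    exact Nat.mul_le_mul_left _
      (ht.trans (by rw [mul_assoc]; exact Nat.le_mul_of_pos_right _ (by positivity)))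
  obtain ⟨i, hi⟩ : ∃ i, Nat.clog 2 X = i + 1 :=
    ⟨_, (Nat.succ_pred_eq_of_pos (Nat.clog_pos (by norm_num) (by omega))).symm⟩
  have hi1 : X ≤ 2 ^ (i + 1) := hi ▸ Nat.le_pow_clog (by norm_num) X
  have hi2 : 2 ^ (i + 1) ≤ 2 * X := by
    have := Nat.pow_pred_clog_lt_self (b := 2) (by norm_num) (x := X) (by omega)
    rw [hi, Nat.pred_succ] at this
    omega
  refine ⟨n / (k + 1), l, i, ⟨Nat.mul_div_le _ _, ht, hg, hgt, hl0, by omega, hT, ?_, ?_⟩, hl2⟩
  · have h1 : l * g ^ 2 ≤ 2 ^ (L * (k + 1)) := by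
      calc _ ≤ n * n ^ k := Nat.mul_le_mul (Nat.div_le_self _ _)
            ((Nat.pow_le_pow_right hg ht).trans hgt)
        _ = n ^ (k + 1) := by ring
        _ ≤ _ := by rw [pow_mul]; gcongr
    calc _ ≤ ((2 ^ (L * (k + 1))) ^ l) ^ t := by gcongr
      _ = 2 ^ X := by rw [← pow_mul, ← pow_mul, hX]; ring_nf
      _ ≤ _ := Nat.pow_le_pow_right (by norm_num) hi1
  · rw [Nat.le_div_iff_mul_le (by omega)]
    refine le_trans ?_ hl1
    calc _ ≤ 4 * (2 * X) * T ^ 3 * 2 ^ t * (k + 1) := by gcongr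
      _ = _ := by rw [hE, hX]; ring

theorem real_bound {t T W S : ℕ} (ht : 2 ≤ t) (hn : 1 ≤ n) (hT : 1 ≤ T) (hW : 1 ≤ W) {δ : ℝ}
    (hδ1 : δ ≤ 1) (hE : 64 * (T : ℝ) ^ 3 * 2 ^ t * (t * (k + 1)) * (k + 1) *
      ((Nat.log 2 n : ℝ) + 1) ^ 1 * W ≤ (n : ℝ) ^ δ)
    (H : ∀ m l g i, Fits k n m t l g i T → l * g ^ 2 ≤ S * W) :
    (n : ℝ) ^ (1 + 2 * (k : ℝ) / t - δ) ≤ S := by
  have htR : (2 : ℝ) ≤ t := by exact_mod_cast ht
  have hnR : (1 : ℝ) ≤ n := by exact_mod_cast hn
  have hn0 : (0 : ℝ) < n := by linarith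
  set x : ℝ := (n : ℝ) ^ ((k : ℝ) / t) with hx
  have hx1 : 1 ≤ x := Real.one_le_rpow hnR (by positivity)
  have hg : 1 ≤ ⌊x⌋₊ := Nat.le_floor (by exact_mod_cast hx1)
  have hg2 : x ≤ 2 * ⌊x⌋₊ := by
    have h1 : (1 : ℝ) ≤ ⌊x⌋₊ := by exact_mod_cast hg
    linarith [Nat.lt_floor_add_one x]
  have hgt : ⌊x⌋₊ ^ t ≤ n ^ k := by
    have h1 : (⌊x⌋₊ : ℝ) ^ t ≤ x ^ t :=
      pow_le_pow_left₀ (by positivity) (Nat.floor_le (by linarith)) t
    rw [hx, ← Real.rpow_natCast, ← Real.rpow_natCast, ← Real.rpow_mul hn0.le,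
      div_mul_cancel₀ _ (by linarith), Real.rpow_natCast, Real.rpow_natCast] at h1
    exact_mod_cast h1
  set E := 8 * T ^ 3 * 2 ^ t * (t * (k + 1) * (Nat.log 2 n + 1)) * (k + 1) with hE'
  have hEW : 8 * (E : ℝ) * W ≤ (n : ℝ) ^ δ := by
    refine le_trans (le_of_eq ?_) hE
    rw [hE']; push_cast; ring
  have hEn : E ≤ n := by
    have h1 : (n : ℝ) ^ δ ≤ n := by simpa using Real.rpow_le_rpow_of_exponent_le hnR hδ1
    have h2 : (1 : ℝ) ≤ W := by exact_mod_cast hW
    have h3 : (E : ℝ) ≤ n := by nlinarith [Nat.cast_nonneg (α := ℝ) E]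
    exact_mod_cast h3
  obtain ⟨m, l, i, hF, hl⟩ := exists_fits ht hg hgt
    (Nat.lt_pow_succ_log_self (by norm_num) n).le (by omega) hT hE' hEn
  have key : n * ⌊x⌋₊ ^ 2 ≤ 2 * E * (S * W) := by
    calc _ ≤ 2 * E * l * ⌊x⌋₊ ^ 2 := by gcongr
      _ ≤ _ := by rw [mul_assoc]; exact Nat.mul_le_mul_left _ (H _ _ _ _ hF)
  have h1 : (n : ℝ) * (⌊x⌋₊ : ℝ) ^ 2 ≤ 2 * E * (S * W) := by exact_mod_cast key
  have h2 : (n : ℝ) ^ (1 + 2 * (k : ℝ) / t) = n * x ^ 2 := by
    rw [hx, Real.rpow_add hn0, Real.rpow_one, ← Real.rpow_natCast, ← Real.rpow_mul hn0.le]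
    congr 2
    push_cast
    ring
  rw [Real.rpow_sub hn0, div_le_iff₀ (by positivity), h2]
  calc _ ≤ n * (2 * (⌊x⌋₊ : ℝ)) ^ 2 := by gcongr
    _ ≤ S * (8 * E * W) := by nlinarith
    _ ≤ _ := by gcongr

theorem main (k t : ℕ) (hk : 2 ≤ k) (ht : 2 ≤ t) (δ : ℝ) (hδ : 0 < δ) (hδ1 : δ ≤ 1) :
    ∀ᶠ n : ℕ in Filter.atTop, ∀ U S w : ℕ, 4 * n ^ k ≤ U →
      7 * t * (w : ℝ) ≤ δ * Real.logb 2 n → SolvesR k n U S w t →
        (n : ℝ) ^ (1 + 2 * ((k : ℝ) - 1) / t - δ) ≤ S := by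
  obtain ⟨k, rfl⟩ : ∃ k', k = k' + 1 := ⟨k - 1, by omega⟩
  have htR : (2 : ℝ) ≤ t := by exact_mod_cast ht
  set A : ℝ := 64 * (1024 * 2 ^ (2 * t)) ^ 3 * 2 ^ t * (t * (k + 1)) * (k + 1) with hA
  filter_upwards [ev_log A (by positivity) 1 (c := δ / 14) (by positivity),
    Filter.eventually_ge_atTop 1] with n e1 hn U S w hU hw H
  have hn0 : (0 : ℝ) < n := by exact_mod_cast hn
  have hW : ((2 : ℝ) ^ w) ^ (6 * t + 1) ≤ (n : ℝ) ^ (13 * δ / 14) := by
    rw [← pow_mul, ← Real.rpow_natCast, ← Real.rpow_logb (b := 2) (x := n) (by norm_num)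
      (by norm_num) hn0, ← Real.rpow_mul (by norm_num)]
    refine Real.rpow_le_rpow_of_exponent_le (by norm_num) ?_
    push_cast
    nlinarith [mul_le_mul_of_nonneg_right htR (Nat.cast_nonneg (α := ℝ) w)]
  have key := real_bound (k := k) (S := S) (W := 2 ^ w) (T := 1024 * (2 * 2 ^ w) ^ (2 * t)) ht hn
    (Nat.succ_le_of_lt (by positivity)) Nat.one_le_two_pow hδ1 ?_
    fun m l g i h => finite_bound hU H h
  · simpa using key
  · calc _ = A * ((Nat.log 2 n : ℝ) + 1) ^ 1 * (2 ^ w) ^ (6 * t + 1) := by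
          rw [hA]; push_cast; ring
      _ ≤ (n : ℝ) ^ (δ / 14) * (n : ℝ) ^ (13 * δ / 14) := by gcongr
      _ = _ := by rw [← Real.rpow_add hn0]; congr 1; ring

end Pool.Agent.MP_5e38ef_lc.KK
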