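import Pool.Agent.MP_5e38ef_lc.Core

namespace Pool.Agent.MP_5e38ef_lc.KK
open Finset

set_option linter.unusedSectionVars false

variable {X E C : Type} [Fintype X] [DecidableEq X] [Fintype E] [Fintype C] [DecidableEq C]

lemma tr_nonneg (src : E → X) (rev : E → E) (hrev : Function.Involutive rev) (d : X → ℝ)
    (hd : ∀ x, 0 < d x) (β : E → ℝ) (hβ : ∀ e, β (rev e) = β e) (j : ℕ) (x : X) :
    0 ≤ (opT src rev d β)^[j + j] (Pi.single x 1) x := by
  have h := ip_nonneg d hd ((opT src rev d β)^[j] (Pi.single x 1))
  rw [ip_adj_iter src rev hrev d hd β hβ, ← Function.iterate_add_apply, ip_comm, ip_single] at h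
  exact (mul_nonneg_iff_of_pos_left (hd x)).1 h

/-- The two labels of every edge of a walk. -/
def labs (rev : E → E) (lab : E → C) : List E → List C
  | [] => []
  | e :: l => lab e :: lab (rev e) :: labs rev lab l

lemma labs_length (rev : E → E) (lab : E → C) (l : List E) :
    (labs rev lab l).length = 2 * l.length := by
  induction l with
  | nil => rfl
  | cons e l ih => simp only [labs, List.length_cons, ih]; ring

lemma count_le (D : Finset E) (c : E → ℝ) (y : E → C) (R : ℝ)
    (hR : ∀ κ, ∑ e ∈ D, |c e| * (if y e = κ then 1 else 0) ≤ R) (L : List C) :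
    ∑ e ∈ D, |c e| * (if y e ∈ L then 1 else 0) ≤ L.length * R := by
  induction L with
  | nil => simp
  | cons κ L ih =>
    calc _ ≤ ∑ e ∈ D, (|c e| * (if y e = κ then 1 else 0) + |c e| * (if y e ∈ L then 1 else 0)) := by
          refine sum_le_sum fun e _ => ?_
          have := abs_nonneg (c e)
          simp only [List.mem_cons]
          split_ifs <;> first | linarith | tauto
      _ ≤ _ := by
          rw [sum_add_distrib, List.length_cons]
          push_cast
          linarith [hR κ]

theorem ktrace (src : E → X) (rev : E → E) (hrev : Function.Involutive rev) (lab : E → C)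
    (c : E → ℝ) (hc : ∀ e, c (rev e) = c e) (hc1 : ∀ e, |c e| ≤ 1)
    (hne : ∀ e, lab e = lab (rev e) → c e = 0) (d R : X → ℝ) (hd : ∀ x, 0 < d x)
    (hdeg : ∀ x, ((univ.filter fun e => src e = x).card : ℝ) ≤ d x) (hR0 : ∀ x, 0 ≤ R x)
    (hR1 : ∀ x κ, ∑ e ∈ univ.filter (fun e => src e = x),
      |c e| * (if lab e = κ then 1 else 0) ≤ R x)
    (hR2 : ∀ x κ, ∑ e ∈ univ.filter (fun e => src e = x),
      |c e| * (if lab (rev e) = κ then 1 else 0) ≤ R x)
    (T : ℝ) (hT : 1 ≤ T) (i : ℕ) (hX : Fintype.card X ≤ 2 ^ 2 ^ (i + 1))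
    (hQ : ∀ x, 4 * 2 ^ (i + 1) * T ^ 2 * R x ≤ d x)
    (f : (C → Bool) → X → ℝ) (hf : ∀ g x, f g x * f g x ≤ 1) :
    ∑ g : C → Bool, ∑ e, c e * sgn (g (lab e)) * sgn (g (lab (rev e))) *
      f g (src e) * f g (src (rev e)) ≤ Fintype.card (C → Bool) * (8 / T * ∑ x, d x) := by
  classical
  set Q := 2 ^ (i + 1) with hQd
  have hQ0 : 0 < Q := by positivity
  have hT0 : 0 < T := by linarith
  set β : (C → Bool) → E → ℝ := fun g e => c e * sgn (g (lab e)) * sgn (g (lab (rev e))) with hβ
  have hβs : ∀ g e, β g (rev e) = β g e := fun g e => by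
    simp only [hβ, hc, hrev e]; ring
  set G : ℝ := (Fintype.card (C → Bool) : ℝ) with hG
  have hG0 : 0 ≤ G := Nat.cast_nonneg _
  set K := ∑ x, d x with hK
  have hK0 : 0 ≤ K := sum_nonneg fun x _ => (hd x).le
  set tr : (C → Bool) → ℝ := fun g => ∑ x, (opT src rev d (β g))^[Q] (Pi.single x 1) x with htr
  have htr0 : ∀ g, 0 ≤ tr g := fun g => sum_nonneg fun x _ => by
    rw [hQd, pow_succ, mul_two]; exact tr_nonneg src rev hrev d hd _ (hβs g) _ x
  have h2 : ∀ x, ∑ g, (opT src rev d (β g))^[Q] (Pi.single x 1) x ≤ 2 ^ Q * (G / T ^ Q) := by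
    intro x
    have h3 : ∀ g, (opT src rev d (β g))^[Q] (Pi.single x 1) x =
        ws src rev d (fun y l' => (List.map (β g) l').prod * (Pi.single x 1 : X → ℝ) y)
          Q x [] := by
      intro g; rw [← ws_opT]; simp
    simp only [h3]
    rw [ws_sum]
    have hP : ∀ l : List E, 0 ≤ (l.map fun e => |c e|).prod := fun l =>
      List.prod_nonneg (by simp +contextual)
    have h4 := ws_le src rev d hd
      (fun y l' => ∑ g, (List.map (β g) l').prod * (Pi.single x 1 : X → ℝ) y)
      (fun l => G / T ^ Q * ((l.map fun e => |c e|).prod * psi T (labs rev lab l))) Q 2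
      (by norm_num) ?_ ?_ Q x [] (by simp)
    · simpa [psi, labs] using h4
    · intro y l hl
      rw [← sum_mul]
      have h6 : ∀ g : C → Bool, (List.map (β g) l).prod =
          (l.map c).prod * ((labs rev lab l).map fun x => sgn (g x)).prod := by
        intro g
        clear hl
        induction l with
        | nil => simp [labs]
        | cons e l ih => simp only [List.map_cons, List.prod_cons, labs, ih]; simp only [hβ]; ring
      have h7 : |(l.map c).prod| = (l.map fun e => |c e|).prod := by
        clear hl h6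
        induction l with
        | nil => simp
        | cons e l ih => simp only [List.map_cons, List.prod_cons, abs_mul, ih]
      have h8 : |(Pi.single x 1 : X → ℝ) y| ≤ 1 := by
        rw [Pi.single_apply]; split_ifs <;> simp
      refine (le_abs_self _).trans ?_
      rw [abs_mul]
      refine (mul_le_of_le_one_right (abs_nonneg _) h8).trans ?_
      simp only [h6]
      rw [← mul_sum, abs_mul, h7]
      refine (mul_le_mul_of_nonneg_left (sum_prod_le hT _ Q (by rw [labs_length, hl]))
        (hP l)).trans (le_of_eq ?_)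
      rw [hG]; ring
    · intro y l hl
      set L := labs rev lab l with hL
      have hLl : (L.length : ℝ) ≤ 2 * 2 ^ (i + 1) := by
        rw [hL, labs_length]
        have : 2 * l.length ≤ 2 * 2 ^ (i + 1) := by omega
        exact_mod_cast this
      have hp := psi_pos hT0 L
      set A := G / T ^ Q * ((l.map fun e => |c e|).prod * psi T L) with hA
      have hA0 : 0 ≤ A := mul_nonneg (by positivity) (mul_nonneg (hP l) hp.le)
      rw [← sum_div, div_le_iff₀ (hd y)]
      have h5 : ∀ e, G / T ^ Q * (((e :: l).map fun e => |c e|).prod *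
          psi T (labs rev lab (e :: l))) ≤ A * (1 + T ^ 2 * (|c e| * (if lab e ∈ L then 1 else 0) +
            |c e| * (if lab (rev e) ∈ L then 1 else 0))) := by
        intro e
        have h6 : |c e| * ((if lab (rev e) ∈ L then T else 1) *
            (if lab e ∈ lab (rev e) :: L then T else 1)) ≤ 1 + T ^ 2 *
            (|c e| * (if lab e ∈ L then 1 else 0) + |c e| * (if lab (rev e) ∈ L then 1 else 0)) := by
          have h7 := hc1 e
          have h8 := abs_nonneg (c e)
          have h9 : T ≤ T ^ 2 := by nlinarith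
          by_cases h : lab e = lab (rev e)
          · rw [hne e h]; simp
          · by_cases h1 : lab e ∈ L <;> by_cases h2 : lab (rev e) ∈ L <;>
              simp only [List.mem_cons, h, h1, h2, false_or, if_true, if_false] <;>
              nlinarith [mul_le_mul_of_nonneg_left h9 h8]
        refine le_trans (le_of_eq ?_) (mul_le_mul_of_nonneg_left h6 hA0)
        simp only [List.map_cons, List.prod_cons, labs, psi, hA, ← hL]
        ring
      refine (sum_le_sum fun e _ => h5 e).trans ?_
      rw [← mul_sum, sum_add_distrib, ← mul_sum, sum_add_distrib, sum_const, nsmul_eq_mul, mul_one]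
      have h6 := count_le _ c lab (R y) (hR1 y) L
      have h7 := count_le _ c (fun e => lab (rev e)) (R y) (hR2 y) L
      have h8 := mul_le_mul_of_nonneg_right hLl (hR0 y)
      have h9 := mul_le_mul_of_nonneg_left (add_le_add (h6.trans h8) (h7.trans h8))
        (sq_nonneg T)
      have h10 := hQ y
      have h11 := hdeg y
      rw [show 2 * A * d y = A * (2 * d y) by ring]
      exact mul_le_mul_of_nonneg_left (by nlinarith) hA0
  have h3 : ∑ g, tr g ≤ G * (4 / T) ^ Q := by
    simp only [htr]
    rw [sum_comm]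
    refine (sum_le_sum fun x _ => h2 x).trans ?_
    rw [sum_const, card_univ, nsmul_eq_mul]
    have h4 : (Fintype.card X : ℝ) ≤ 2 ^ Q := by exact_mod_cast hX
    refine (mul_le_mul_of_nonneg_right h4 (by positivity)).trans (le_of_eq ?_)
    rw [div_pow, show (4 : ℝ) = 2 * 2 by norm_num, mul_pow]
    ring
  have hl : 0 < 4 / T := by positivity
  have h4 : ∀ g, ∑ e, β g e * f g (src e) * f g (src (rev e)) ≤
      K * (4 / T) * (1 + tr g / (4 / T) ^ Q) := by
    intro g
    set B := ∑ e, β g e * f g (src e) * f g (src (rev e)) with hB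
    have h5 : 0 ≤ tr g / (4 / T) ^ Q := div_nonneg (htr0 g) (by positivity)
    by_cases h : B ≤ K * (4 / T)
    · exact h.trans (le_mul_of_one_le_right (by positivity) (by linarith))
    · rw [not_le] at h
      have hB0 : 0 < B := lt_of_le_of_lt (by positivity) h
      have hKf : ∑ x, d x * f g x * f g x ≤ K := sum_le_sum fun x _ => by
        rw [mul_assoc]; exact mul_le_of_le_one_right (hd x).le (hf g x)
      have h6 : (B / K) ^ Q ≤ tr g :=
        spectral src rev hrev d hd (β g) (hβs g) (f g) B K hB0 hKf le_rfl i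
      have hK1 : 0 < K := by
        rcases hK0.lt_or_eq with h7 | h7
        · exact h7
        · have h8 : IsEmpty X := by
            by_contra h9
            rw [not_isEmpty_iff] at h9
            exact (sum_pos (fun x _ => hd x) univ_nonempty).ne h7
          have h9 : IsEmpty E := ⟨fun e => h8.elim (src e)⟩
          simp [hB] at hB0
      have h7 : 1 ≤ B / K / (4 / T) := by
        rw [le_div_iff₀ hl, le_div_iff₀ hK1]; linarith
      have h8 : B / K / (4 / T) ≤ tr g / (4 / T) ^ Q := by
        refine (le_self_pow₀ h7 hQ0.ne').trans ?_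
        rw [div_pow]
        exact div_le_div_of_nonneg_right h6 (by positivity)
      rw [div_le_iff₀ hl, div_le_iff₀ hK1] at h8
      nlinarith [mul_pos hK1 hl]
  refine (sum_le_sum fun g _ => h4 g).trans ?_
  rw [← mul_sum, sum_add_distrib, ← sum_div, sum_const, card_univ, nsmul_eq_mul, ← hG]
  have h5 : (∑ g, tr g) / (4 / T) ^ Q ≤ G := by rwa [div_le_iff₀ (by positivity)]
  calc _ ≤ K * (4 / T) * (G * 1 + G) := by gcongr
    _ = _ := by ring

variable {Ω Z : Type} [Fintype Ω] [DecidableEq Z]

/-- The number of edges at the source of `e` with the same `y`-value. -/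
def same {Y : Type} [DecidableEq Y] (src : E → X) (y : E → Y) (e : E) : ℕ :=
  (univ.filter fun e' => src e' = src e ∧ y e' = y e).card

lemma markov (src : E → X) (y : E → Z) (cls : Ω → Z → C) {m ρ T : ℝ} (hm : 0 < m) (hρ : 0 < ρ)
    (hT : 0 < T) (hcol : ∀ z z', z ≠ z' →
      m * (univ.filter fun s => cls s z = cls s z').card ≤ Fintype.card Ω)
    (hs : ∑ e, (same src y e : ℝ) ≤ ρ * Fintype.card E) :
    ∑ s, ∑ e, (if T * (ρ + (univ.filter fun e' => src e' = src e).card / m) <
      same src (fun e => cls s (y e)) e then (1 : ℝ) else 0) ≤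
      Fintype.card Ω * (2 * Fintype.card E / T) := by
  classical
  set N : ℝ := (Fintype.card Ω : ℝ) with hN
  have hN0 : 0 ≤ N := Nat.cast_nonneg _
  rw [sum_comm]
  have h1 : ∀ e, ∑ s, (if T * (ρ + (univ.filter fun e' => src e' = src e).card / m) <
      same src (fun e => cls s (y e)) e then (1 : ℝ) else 0) ≤
      N / T * (same src y e / ρ + 1) := by
    intro e
    set D := (univ.filter fun e' => src e' = src e) with hD
    have hD0 : (0 : ℝ) ≤ D.card / m := by positivity
    have hR : 0 < T * (ρ + D.card / m) := by positivity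
    have h2 : ∑ s, (same src (fun e => cls s (y e)) e : ℝ) ≤ N * (same src y e + D.card / m) := by
      have h3 : ∀ {Y : Type} [DecidableEq Y] (y : E → Y), (same src y e : ℝ) =
          ∑ e' ∈ D, if y e' = y e then 1 else 0 := by
        intro Y _ y
        rw [sum_boole, hD, filter_filter, same]
      simp only [h3]
      rw [sum_comm, div_eq_mul_inv, ← nsmul_eq_mul D.card, ← sum_const, ← sum_add_distrib, mul_sum]
      refine sum_le_sum fun e' _ => ?_
      rw [sum_boole]
      by_cases h : y e' = y e
      · have : ((univ.filter fun s => cls s (y e') = cls s (y e)).card : ℝ) ≤ N := by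
          rw [hN]; exact_mod_cast card_le_univ _
        rw [if_pos h]
        nlinarith [mul_nonneg hN0 (inv_pos.2 hm).le]
      · rw [if_neg h, zero_add, ← div_eq_mul_inv, le_div_iff₀ hm, mul_comm]
        exact hcol _ _ h
    calc _ ≤ ∑ s, (same src (fun e => cls s (y e)) e : ℝ) / (T * (ρ + D.card / m)) := by
          refine sum_le_sum fun s _ => ?_
          split_ifs with h
          · rw [le_div_iff₀ hR]; linarith
          · positivity
      _ ≤ N * (same src y e + D.card / m) / (T * (ρ + D.card / m)) := by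
          rw [← sum_div]; exact div_le_div_of_nonneg_right h2 hR.le
      _ = N / T * (same src y e / (ρ + D.card / m) + D.card / m / (ρ + D.card / m)) := by
          field_simp
      _ ≤ _ := by
          refine mul_le_mul_of_nonneg_left (add_le_add ?_ ?_) (by positivity)
          · exact div_le_div_of_nonneg_left (Nat.cast_nonneg _) hρ (by linarith)
          · rw [div_le_one (by positivity)]; linarith
  refine (sum_le_sum fun e _ => h1 e).trans ?_
  rw [← mul_sum, sum_add_distrib, ← sum_div, sum_const, card_univ, nsmul_eq_mul, mul_one]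
  have h2 : (∑ e, (same src y e : ℝ)) / ρ ≤ Fintype.card E := by
    rwa [div_le_iff₀ hρ, mul_comm]
  calc _ ≤ N / T * (Fintype.card E + Fintype.card E) := by gcongr
    _ = _ := by ring

theorem kgraph (src : E → X) (rev : E → E) (hrev : Function.Involutive rev) (zq : E → Z)
    (cls : Ω → Z → C) {m ρ T a : ℝ} (hρ : 0 < ρ) (hT : 1 ≤ T) (i : ℕ)
    (hm : 4 * 2 ^ (i + 1) * T ^ 3 ≤ m) (ha : 4 * 2 ^ (i + 1) * T ^ 3 * ρ ≤ a)
    (hX : Fintype.card X ≤ 2 ^ 2 ^ (i + 1)) (hcol : ∀ z z', z ≠ z' →
      m * (univ.filter fun s => cls s z = cls s z').card ≤ Fintype.card Ω)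
    (hs1 : ∑ e, (same src zq e : ℝ) ≤ ρ * Fintype.card E)
    (hs2 : ∑ e, (same src (fun e => zq (rev e)) e : ℝ) ≤ ρ * Fintype.card E)
    (hE : (Fintype.card E : ℝ) ≤ a * Fintype.card X)
    (hD : T * (univ.filter fun e => zq e = zq (rev e)).card ≤ a * Fintype.card X)
    (b : Z → ℝ) (hb : ∀ z, |b z| ≤ 1) (f : Ω → (C → Bool) → X → ℝ)
    (hf : ∀ s g x, |f s g x| ≤ 1) :
    ∑ s, ∑ g : C → Bool, ∑ e, b (zq e) * b (zq (rev e)) * sgn (g (cls s (zq e))) *
      sgn (g (cls s (zq (rev e)))) * f s g (src e) * f s g (src (rev e)) ≤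
      Fintype.card Ω * (Fintype.card (C → Bool) * (26 * (a * Fintype.card X) / T)) := by
  classical
  have hT0 : 0 < T := by linarith
  have hTm : T ≤ m := by
    have h1 : (1 : ℝ) ≤ 2 ^ (i + 1) := one_le_pow₀ (by norm_num)
    have h2 : T ≤ T ^ 3 := le_self_pow₀ hT (by norm_num)
    nlinarith
  have hm0 : 0 < m := by linarith
  have ha0 : 0 < a := lt_of_lt_of_le (by positivity) ha
  set G : ℝ := (Fintype.card (C → Bool) : ℝ) with hG
  have hG0 : 0 ≤ G := Nat.cast_nonneg _
  set N : ℝ := (Fintype.card Ω : ℝ) with hN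
  have hN0 : 0 ≤ N := Nat.cast_nonneg _
  set deg : X → ℝ := fun x => (univ.filter fun e => src e = x).card with hdeg
  set R : X → ℝ := fun x => T * (ρ + deg x / m) with hR
  have hR0 : ∀ x, 0 ≤ R x := fun x => by simp only [hR, hdeg]; positivity
  let B1 : Ω → E → Prop := fun s e => R (src e) < same src (fun e => cls s (zq e)) e
  let B2 : Ω → E → Prop := fun s e => R (src e) < same src (fun e => cls s (zq (rev e))) e
  let bad : Ω → E → Prop := fun s e => cls s (zq e) = cls s (zq (rev e)) ∨
    (B1 s e ∨ B2 s e) ∨ B1 s (rev e) ∨ B2 s (rev e)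
  let c : Ω → E → ℝ := fun s e => if bad s e then 0 else b (zq e) * b (zq (rev e))
  have hbb : ∀ z z', |b z * b z'| ≤ 1 := fun z z' => by
    rw [abs_mul]; exact mul_le_one₀ (hb z) (abs_nonneg _) (hb z')
  have hc1 : ∀ s e, |c s e| ≤ 1 := fun s e => by
    simp only [c]; split_ifs
    · simp
    · exact hbb _ _
  have hRy : ∀ s (y : E → C), (∀ e, R (src e) < same src y e → bad s e) → ∀ x κ,
      ∑ e ∈ univ.filter (fun e => src e = x), |c s e| * (if y e = κ then 1 else 0) ≤ R x := by
    intro s y hy x κ
    by_cases h : ∃ e, src e = x ∧ y e = κ ∧ ¬ bad s e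
    · obtain ⟨e, rfl, rfl, h⟩ := h
      refine le_trans ?_ (not_lt.1 (mt (hy e) h))
      rw [same, ← filter_filter, ← sum_boole]
      refine sum_le_sum fun e' _ => mul_le_of_le_one_left (by split_ifs <;> simp) (hc1 s e')
    · refine le_trans (le_of_eq (sum_eq_zero fun e he => ?_)) (hR0 x)
      split_ifs with h1
      · have : bad s e := by
          by_contra h2
          exact h ⟨e, (mem_filter.1 he).2, h1, h2⟩
        simp [c, this]
      · simp
  have hK : ∑ x, (deg x + a) ≤ 2 * (a * Fintype.card X) := by
    have : ∑ x, deg x = Fintype.card E := by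
      simp only [hdeg]
      rw [← Nat.cast_sum, ← card_eq_sum_card_fiberwise (fun _ _ => mem_univ _), card_univ]
    rw [sum_add_distrib, this, sum_const, card_univ, nsmul_eq_mul]
    linarith
  have h1 : ∀ s, ∑ g : C → Bool, ∑ e, b (zq e) * b (zq (rev e)) * sgn (g (cls s (zq e))) *
      sgn (g (cls s (zq (rev e)))) * f s g (src e) * f s g (src (rev e)) ≤
      G * (16 * (a * Fintype.card X) / T) + G * ∑ e, if bad s e then (1 : ℝ) else 0 := by
    intro s
    have h2 := ktrace src rev hrev (fun e => cls s (zq e)) (c s) (fun e => ?_) (hc1 s)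
      (fun e he => if_pos (Or.inl he)) (fun x => deg x + a) R
      (fun x => by simp only [hdeg]; positivity) (fun x => by simp only [hdeg]; linarith) hR0
      (hRy s _ fun e he => Or.inr (Or.inl (Or.inl he)))
      (hRy s _ fun e he => Or.inr (Or.inl (Or.inr he))) T hT i hX (fun x => ?_) (f s)
      (fun g x => by rw [← sq, ← sq_abs]; exact pow_le_one₀ (abs_nonneg _) (hf s g x))
    · have h3 : G * (8 / T * ∑ x, (deg x + a)) ≤ G * (16 * (a * Fintype.card X) / T) := by
        refine mul_le_mul_of_nonneg_left ?_ hG0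
        calc _ ≤ 8 / T * (2 * (a * Fintype.card X)) := by gcongr
          _ = _ := by ring
      refine le_trans ?_ (add_le_add (h2.trans h3) le_rfl)
      rw [hG, ← card_univ, ← nsmul_eq_mul, ← sum_const, ← sum_add_distrib]
      refine sum_le_sum fun g _ => ?_
      rw [← sum_add_distrib]
      refine sum_le_sum fun e _ => ?_
      simp only [c]
      split_ifs
      · simp only [zero_mul, zero_add]
        refine (le_abs_self _).trans ?_
        rw [abs_mul, abs_mul, abs_mul, abs_mul, abs_sgn, abs_sgn, mul_one, mul_one]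
        exact mul_le_one₀ (mul_le_one₀ (hbb _ _) (abs_nonneg _) (hf _ _ _)) (abs_nonneg _)
          (hf _ _ _)
      · simp
    · have : bad s (rev e) ↔ bad s e := by
        simp only [bad, hrev e]; tauto
      simp only [c, this, hrev e, mul_comm]
    · have h3 : 4 * 2 ^ (i + 1) * T ^ 3 * (deg x / m) ≤ deg x := by
        have : 0 ≤ deg x / m := by simp only [hdeg]; positivity
        calc _ ≤ m * (deg x / m) := by gcongr
          _ = _ := by field_simp
      simp only [hR]
      nlinarith
  have h4 : ∑ s, ∑ e, (if cls s (zq e) = cls s (zq (rev e)) then (1 : ℝ) else 0) ≤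
      N * (2 * (a * Fintype.card X) / T) := by
    rw [sum_comm]
    calc _ ≤ ∑ e, N * ((if zq e = zq (rev e) then (1 : ℝ) else 0) + 1 / T) := by
          refine sum_le_sum fun e _ => ?_
          rw [sum_boole]
          by_cases h : zq e = zq (rev e)
          · have : ((univ.filter fun s => cls s (zq e) = cls s (zq (rev e))).card : ℝ) ≤ N := by
              rw [hN]; exact_mod_cast card_le_univ _
            rw [if_pos h]
            nlinarith [mul_nonneg hN0 (one_div_pos.2 hT0).le]
          · have := hcol _ _ h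
            rw [if_neg h, zero_add, mul_one_div, le_div_iff₀ hT0, mul_comm]
            exact (mul_le_mul_of_nonneg_right hTm (Nat.cast_nonneg _)).trans this
      _ ≤ _ := by
          rw [← mul_sum, sum_add_distrib, sum_boole, sum_const, card_univ, nsmul_eq_mul]
          refine mul_le_mul_of_nonneg_left ?_ hN0
          rw [le_div_iff₀ hT0, add_mul, mul_one_div, div_mul_cancel₀ _ hT0.ne', mul_comm _ T]
          linarith
  have h5 := markov src zq cls hm0 hρ hT0 hcol hs1
  have h6 := markov src (fun e => zq (rev e)) cls hm0 hρ hT0 hcol hs2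
  have h7 : ∀ P : Ω → E → Prop, ∑ s, ∑ e, (if P s (rev e) then (1 : ℝ) else 0) =
      ∑ s, ∑ e, (if P s e then (1 : ℝ) else 0) := fun P => sum_congr rfl fun s _ =>
    Equiv.sum_comp hrev.toPerm (fun e => if P s e then (1 : ℝ) else 0)
  have h8 : ∑ s, ∑ e, (if bad s e then (1 : ℝ) else 0) ≤ N * (10 * (a * Fintype.card X) / T) := by
    have h9 : N * (2 * Fintype.card E / T) ≤ N * (2 * (a * Fintype.card X) / T) := by gcongr
    have h10 : ∑ s, ∑ e, (if B1 s e then (1 : ℝ) else 0) ≤ _ := (le_of_eq (by congr!)).trans h5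
    have h11 : ∑ s, ∑ e, (if B2 s e then (1 : ℝ) else 0) ≤ _ := (le_of_eq (by congr!)).trans h6
    have h12 := h7 B1
    have h13 := h7 B2
    calc _ ≤ ∑ s, ∑ e, ((if cls s (zq e) = cls s (zq (rev e)) then (1 : ℝ) else 0) +
          (if B1 s e then (1 : ℝ) else 0) + (if B2 s e then (1 : ℝ) else 0) +
          (if B1 s (rev e) then (1 : ℝ) else 0) + (if B2 s (rev e) then (1 : ℝ) else 0)) := by
          refine sum_le_sum fun s _ => sum_le_sum fun e _ => ?_
          simp only [bad]
          split_ifs <;> first | (norm_num; done) | tauto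
      _ ≤ _ := by
          simp only [sum_add_distrib]
          have : N * (10 * (a * Fintype.card X) / T) = 5 * (N * (2 * (a * Fintype.card X) / T)) := by
            ring
          convert_to _ ≤ 5 * (N * (2 * (a * Fintype.card X) / T))
          linarith
  refine (sum_le_sum fun s _ => h1 s).trans ?_
  rw [sum_add_distrib, ← mul_sum _ _ G, ← mul_sum _ _ G, sum_const, card_univ, nsmul_eq_mul, ← hN]
  have := mul_le_mul_of_nonneg_left h8 hG0
  calc _ ≤ G * (N * (16 * (a * Fintype.card X) / T)) + G * (N * (10 * (a * Fintype.card X) / T)) := by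
        linarith
    _ = _ := by ring

end Pool.Agent.MP_5e38ef_lc.KK
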